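import Pool.Agent.Run7.h457.PM.Defs
import Mathlib.NumberTheory.Ostrowski
import Mathlib.Analysis.AbsoluteValue.Equivalence

/-!
# Approximation of homomorphisms at finitely many prime numbers
-/

set_option autoImplicit false
set_option linter.unusedSectionVars false

namespace Run7.h457.SF

open Matrix Topology Run7.h457.PM

noncomputable section

theorem pa_self (p : ℕ) [hp : Fact p.Prime] : Rat.AbsoluteValue.padic p (p : ℚ) < 1 := by
  rw [Rat.AbsoluteValue.padic_eq_padicNorm]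
  have h := padicNorm.padicNorm_p_lt_one (p := p) hp.out.one_lt
  exact_mod_cast h

theorem pa_other (p q : ℕ) [hp : Fact p.Prime] [hq : Fact q.Prime] (h : p ≠ q) :
    Rat.AbsoluteValue.padic p (q : ℚ) = 1 := by
  rw [Rat.AbsoluteValue.padic_eq_padicNorm]
  have h := padicNorm.padicNorm_of_prime_of_ne h
  exact_mod_cast h

/-- weak approximation for the rational numbers -/
theorem weak_rat (Λ : Finset ℕ) (hΛ : ∀ p ∈ Λ, p.Prime) (x : ℕ → ℚ) {ε : ℝ} (hε : 0 < ε) :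
    ∃ q : ℚ, ∀ (p : ℕ) [Fact p.Prime], p ∈ Λ → Rat.AbsoluteValue.padic p (q - x p) < ε := by
  classical
  have hF : ∀ p : Λ, Fact (p : ℕ).Prime := fun p => ⟨hΛ p p.2⟩
  let v : Λ → AbsoluteValue ℚ ℝ := fun p => Rat.AbsoluteValue.padic (p : ℕ)
  have h1 : ∀ p, (v p).IsNontrivial := fun p => by
    refine ⟨((p : ℕ) : ℚ), by exact_mod_cast (hΛ p p.2).ne_zero, ne_of_lt (pa_self p)⟩
  have h2 : Pairwise fun p q => ¬ (v p).IsEquiv (v q) := by
    intro p q hpq he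
    have h3 : v p ((p : ℕ) : ℚ) < 1 := pa_self p
    have h4 := he.lt_one_iff.1 h3
    have h5 : v q ((p : ℕ) : ℚ) = 1 := pa_other q p fun h => hpq (Subtype.ext h.symm)
    rw [h5] at h4
    exact lt_irrefl _ h4
  have h3 := AbsoluteValue.denseRange_algebraMap_pi h1 h2
  obtain ⟨q, hq⟩ := Metric.denseRange_iff.1 h3
    (fun p => (WithAbs.equiv (v p)).symm (x p)) ε hε
  refine ⟨q, fun p hp hpΛ => ?_⟩
  have h4 := (dist_pi_lt_iff hε).1 hq ⟨p, hpΛ⟩
  rw [dist_comm, dist_eq_norm] at h4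
  exact h4

/-- weak approximation -/
theorem weak_approx (Λ : Finset ℕ) (hΛ : ∀ p ∈ Λ, p.Prime)
    (x : ∀ (p : ℕ) [Fact p.Prime], ℚ_[p]) {ε : ℝ} (hε : 0 < ε) :
    ∃ q : ℚ, ∀ (p : ℕ) [Fact p.Prime], p ∈ Λ → ‖(q : ℚ_[p]) - x p‖ < ε := by
  classical
  have h1 : ∀ p : ℕ, ∃ r : ℚ, ∀ [Fact p.Prime], ‖x p - r‖ < ε := by
    intro p
    by_cases hp : p.Prime
    · have : Fact p.Prime := ⟨hp⟩
      obtain ⟨r, hr⟩ := Padic.rat_dense p (x p) hε
      exact ⟨r, fun {_} => hr⟩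
    · exact ⟨0, fun {h} => absurd h.out hp⟩
  choose r hr using h1
  obtain ⟨q, hq⟩ := weak_rat Λ hΛ r hε
  refine ⟨q, fun p _ hp => ?_⟩
  have h2 := hq p hp
  have h3 : ‖((q - r p : ℚ) : ℚ_[p])‖ < ε := by
    rw [Padic.eq_padicNorm]
    exact h2
  have h4 : (q : ℚ_[p]) - x p = ((q - r p : ℚ) : ℚ_[p]) + -(x p - r p) := by
    push_cast
    ring
  rw [h4]
  refine lt_of_le_of_lt (Padic.nonarchimedean _ _) ?_
  rw [norm_neg]
  exact max_lt h3 (hr p)

theorem exists_unif (Λ : Finset ℕ) (Q : ℕ → ℝ → Prop) (h : ∀ p ∈ Λ, ∃ ε : ℝ, 0 < ε ∧ Q p ε)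
    (mono : ∀ p ε ε', ε' ≤ ε → Q p ε → Q p ε') : ∃ ε : ℝ, 0 < ε ∧ ∀ p ∈ Λ, Q p ε := by
  classical
  induction Λ using Finset.induction_on with
  | empty => exact ⟨1, one_pos, fun p hp => absurd hp (Finset.notMem_empty p)⟩
  | insert a s _ ih =>
    obtain ⟨ε, h1, h2⟩ := ih fun p hp => h p (Finset.mem_insert_of_mem hp)
    obtain ⟨ε', h3, h4⟩ := h a (Finset.mem_insert_self a s)
    refine ⟨min ε ε', lt_min h1 h3, fun p hp => ?_⟩
    rcases Finset.mem_insert.1 hp with rfl | hp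
    · exact mono _ _ _ (min_le_right _ _) h4
    · exact mono _ _ _ (min_le_left _ _) (h2 p hp)

variable {κ κ' : Type} [Fintype κ] [DecidableEq κ] [Fintype κ'] [DecidableEq κ']

/-- **Approximation.** -/
theorem exists_near (W : Submodule ℚ (Matrix κ' κ ℚ)) (Λ : Finset ℕ) (hΛ : ∀ p ∈ Λ, p.Prime)
    (φ : ∀ (p : ℕ) [Fact p.Prime], Matrix κ' κ ℚ_[p])
    (hφ : ∀ (p : ℕ) [Fact p.Prime], p ∈ Λ →
      φ p ∈ Submodule.span ℚ_[p] (padic p '' (W : Set (Matrix κ' κ ℚ))))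
    (U : ∀ (p : ℕ) [Fact p.Prime], Set (Matrix κ' κ ℚ_[p]))
    (hU : ∀ (p : ℕ) [Fact p.Prime], p ∈ Λ → U p ∈ 𝓝 (φ p)) :
    ∃ f ∈ W, ∀ (p : ℕ) [Fact p.Prime], p ∈ Λ → padic p f ∈ U p := by
  classical
  let b := Module.finBasis ℚ W
  set d := Module.finrank ℚ W with hd
  have hc : ∀ (p : ℕ), ∃ c : Fin d → (∀ [Fact p.Prime], ℚ_[p]), ∀ [Fact p.Prime], p ∈ Λ →
      φ p = ∑ i, (c i : ℚ_[p]) • padic p (b i : Matrix κ' κ ℚ) := by
    intro p
    by_cases hp : p.Prime ∧ p ∈ Λ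
    · have hF : Fact p.Prime := ⟨hp.1⟩
      have h1 : Submodule.span ℚ_[p] (padic p '' (W : Set (Matrix κ' κ ℚ))) ≤
          Submodule.span ℚ_[p] (Set.range fun i => padic p (b i : Matrix κ' κ ℚ)) := by
        rw [Submodule.span_le]
        rintro _ ⟨f, hf, rfl⟩
        have h2 : f = ∑ i, (b.repr ⟨f, hf⟩ i) • (b i : Matrix κ' κ ℚ) := by
          have h3 := congrArg Subtype.val (b.sum_repr ⟨f, hf⟩)
          refine Eq.trans h3.symm ?_
          rw [Submodule.coe_sum]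
          rfl
        have h4 : padic p f = ∑ i, ((b.repr ⟨f, hf⟩ i : ℚ) : ℚ_[p]) •
            padic p (b i : Matrix κ' κ ℚ) := by
          conv_lhs => rw [h2]
          ext i j
          show algebraMap ℚ ℚ_[p] ((∑ i, (b.repr ⟨f, hf⟩ i) • (b i : Matrix κ' κ ℚ)) i j) = _
          rw [Matrix.sum_apply, Matrix.sum_apply, map_sum]
          refine Finset.sum_congr rfl fun k _ => ?_
          rw [Matrix.smul_apply, Matrix.smul_apply, smul_eq_mul, map_mul]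
          rfl
        rw [h4]
        exact Submodule.sum_mem _ fun i _ =>
          Submodule.smul_mem _ _ (Submodule.subset_span ⟨i, rfl⟩)
      have h2 := h1 (hφ p hp.2)
      rw [Submodule.mem_span_range_iff_exists_fun] at h2
      obtain ⟨c, hc⟩ := h2
      refine ⟨fun i {_} => c i, fun {_} _ => hc.symm⟩
    · exact ⟨fun _ {_} => 0, fun {h} hp' => absurd ⟨h.out, hp'⟩ hp⟩
  choose c hc using hc
  obtain ⟨ε, hε, hεU⟩ := exists_unif Λ (fun p ε => ∀ [Fact p.Prime], ∀ x : Fin d → ℚ_[p],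
      (∀ i, ‖x i - c p i‖ < ε) → ∑ i, x i • padic p (b i : Matrix κ' κ ℚ) ∈ U p) (by
    intro p hp
    have hF : Fact p.Prime := ⟨hΛ p hp⟩
    have h1 : Continuous fun x : Fin d → ℚ_[p] =>
        ∑ i, x i • padic p (b i : Matrix κ' κ ℚ) :=
      continuous_finsetSum _ fun i _ => (continuous_apply i).smul continuous_const
    have h2 := h1.continuousAt.preimage_mem_nhds (x := fun i => (c p i : ℚ_[p])) (by
      have h3 := hU p hp
      rw [hc p hp] at h3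
      exact h3)
    obtain ⟨ε, hε, h3⟩ := Metric.mem_nhds_iff.1 h2
    refine ⟨ε, hε, fun {_} x hx => h3 ?_⟩
    rw [Metric.mem_ball, dist_pi_lt_iff hε]
    intro i
    rw [dist_eq_norm]
    exact hx i) (fun p ε ε' hle h {_} x hx => h x fun i => (hx i).trans_le hle)
  have h4 : ∀ i : Fin d, ∃ q : ℚ, ∀ (p : ℕ) [Fact p.Prime], p ∈ Λ → ‖(q : ℚ_[p]) - c p i‖ < ε :=
    fun i => weak_approx Λ hΛ (fun p _ => c p i) hε
  choose q hq using h4
  refine ⟨∑ i, q i • (b i : Matrix κ' κ ℚ), W.sum_mem fun i _ => W.smul_mem _ (b i).2,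
    fun p _ hp => ?_⟩
  have h5 := hεU p hp (fun i => (q i : ℚ_[p])) fun i => hq i p hp
  convert h5 using 1
  ext i j
  show algebraMap ℚ ℚ_[p] ((∑ i, q i • (b i : Matrix κ' κ ℚ)) i j) = _
  rw [Matrix.sum_apply, Matrix.sum_apply, map_sum]
  refine Finset.sum_congr rfl fun k _ => ?_
  rw [Matrix.smul_apply, Matrix.smul_apply, smul_eq_mul, map_mul]
  rfl

end

end Run7.h457.SF
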