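import Pool.Agent.R390.SF.Fal
import Pool.Agent.W401.Cheb.AbsDefs

/-!
# The absolute Galois group of a number field as a subgroup of the one of `ℚ`
-/

set_option autoImplicit false
set_option linter.unusedSectionVars false

namespace Run7.h457.SF

open NumberField IsDedekindDomain Topology Pool.Agent.Y800 Pool.Agent.W401.Cheb
open Pool.Agent.R390.SF (SubFld)

noncomputable section

variable (K : Type) [Field K] [NumberField K]

theorem exists_clos : Nonempty (AlgebraicClosure K ≃+* AlgebraicClosure ℚ) := by
  have h1 : Algebra.IsAlgebraic K (AlgebraicClosure K) := inferInstance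
  have h2 : Algebra.IsAlgebraic ℚ (AlgebraicClosure K) := Algebra.IsAlgebraic.trans ℚ K _
  have h3 : IsAlgClosure ℚ (AlgebraicClosure K) := ⟨inferInstance, h2⟩
  have h6 : (DivisionRing.toRatAlgebra : Algebra ℚ (AlgebraicClosure ℚ)) =
      AlgebraicClosure.instAlgebra ℚ := Subsingleton.elim _ _
  have h4 : Algebra.IsAlgebraic ℚ (AlgebraicClosure ℚ) := by
    have h7 := AlgebraicClosure.isAlgebraic ℚ
    rw [← h6] at h7
    exact h7
  have h5 : IsAlgClosure ℚ (AlgebraicClosure ℚ) := ⟨inferInstance, h4⟩
  exact ⟨(IsAlgClosure.equiv ℚ (AlgebraicClosure K) (AlgebraicClosure ℚ)).toRingEquiv⟩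

/-- an isomorphism of the algebraic closures -/
def clos : AlgebraicClosure K ≃+* AlgebraicClosure ℚ := (exists_clos K).some

/-- the embedding of `K` -/
def emb : K →ₐ[ℚ] AlgebraicClosure ℚ :=
  ((clos K).toRingHom.comp (algebraMap K (AlgebraicClosure K))).toRatAlgHom

theorem emb_apply (x : K) : emb K x = clos K (algebraMap K (AlgebraicClosure K) x) := rfl

/-- the image of `K` -/
def img : SubFld ℚ := (emb K).fieldRange

instance img_fin : FiniteDimensional ℚ (img K) := by
  have e : K ≃ₗ[ℚ] (img K) := (AlgEquiv.ofInjectiveField (emb K)).toLinearEquiv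
  exact LinearEquiv.finiteDimensional e

theorem mem_img {y : AlgebraicClosure ℚ} : y ∈ img K ↔ ∃ x : K, emb K x = y := Iff.rfl

/-- the conjugate of an automorphism -/
def cjA (σ : GK K) : GQ :=
  AlgEquiv.ofRingEquiv (f := ((clos K).symm.trans (σ : AlgebraicClosure K ≃+* AlgebraicClosure K)).trans
    (clos K)) (fun q => by
      rw [eq_ratCast]
      exact map_ratCast _ q)

theorem cjA_apply (σ : GK K) (y : AlgebraicClosure ℚ) : cjA K σ y = clos K (σ ((clos K).symm y)) := rfl

theorem cjA_mem (σ : GK K) : cjA K σ ∈ (img K).fixingSubgroup := by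
  rw [IntermediateField.mem_fixingSubgroup_iff]
  rintro _ ⟨x, rfl⟩
  show clos K (σ ((clos K).symm (clos K (algebraMap K (AlgebraicClosure K) x)))) = _
  rw [RingEquiv.symm_apply_apply, AlgEquiv.commutes]
  rfl

/-- back -/
def cjB (τ : (img K).fixingSubgroup) : GK K :=
  AlgEquiv.ofRingEquiv (f := ((clos K).trans ((τ : GQ) : AlgebraicClosure ℚ ≃+* AlgebraicClosure ℚ)).trans
    (clos K).symm) (fun x => by
      show (clos K).symm ((τ : GQ) (clos K (algebraMap K (AlgebraicClosure K) x))) = _
      have h := τ.2
      rw [IntermediateField.mem_fixingSubgroup_iff] at h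
      have h1 := h (emb K x) ⟨x, rfl⟩
      rw [emb_apply] at h1
      rw [h1, RingEquiv.symm_apply_apply])

theorem cjB_apply (τ : (img K).fixingSubgroup) (x : AlgebraicClosure K) :
    cjB K τ x = (clos K).symm ((τ : GQ) (clos K x)) := rfl

/-- the isomorphism of the Galois groups -/
def phi : GK K ≃* (img K).fixingSubgroup where
  toFun σ := ⟨cjA K σ, cjA_mem K σ⟩
  invFun τ := cjB K τ
  left_inv σ := by
    apply AlgEquiv.ext
    intro x
    show (clos K).symm (clos K (σ ((clos K).symm (clos K x)))) = σ x
    rw [RingEquiv.symm_apply_apply, RingEquiv.symm_apply_apply]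
  right_inv τ := by
    apply Subtype.ext
    apply AlgEquiv.ext
    intro x
    show clos K ((clos K).symm ((τ : GQ) (clos K ((clos K).symm x)))) = (τ : GQ) x
    rw [RingEquiv.apply_symm_apply, RingEquiv.apply_symm_apply]
  map_mul' σ τ := by
    apply Subtype.ext
    apply AlgEquiv.ext
    intro x
    show clos K (σ (τ ((clos K).symm x))) = clos K (σ ((clos K).symm (clos K (τ ((clos K).symm x)))))
    rw [RingEquiv.symm_apply_apply]

theorem phi_apply (σ : GK K) (y : AlgebraicClosure ℚ) :
    (phi K σ : GQ) y = clos K (σ ((clos K).symm y)) := rfl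

/-- the isomorphism of the rings of integers -/
def theta : 𝓞 (AlgebraicClosure K) ≃+* ZBar := RingOfIntegers.mapRingEquiv (clos K)

theorem theta_coe (x : 𝓞 (AlgebraicClosure K)) :
    ((theta K x : ZBar) : AlgebraicClosure ℚ) = clos K (x : AlgebraicClosure K) := rfl

theorem theta_smul (σ : GK K) (x : 𝓞 (AlgebraicClosure K)) :
    theta K (σ • x) = (phi K σ : GQ) • theta K x := by
  apply RingOfIntegers.ext
  show clos K (σ (x : AlgebraicClosure K)) = clos K (σ ((clos K).symm (clos K (x : AlgebraicClosure K))))
  rw [RingEquiv.symm_apply_apply]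

/-! ## The topology -/

theorem isOpen_stab (y : AlgebraicClosure K) : IsOpen {σ : GK K | σ y = y} := by
  have hy : IsIntegral K y := (Algebra.IsAlgebraic.isAlgebraic y).isIntegral
  have : FiniteDimensional K (IntermediateField.adjoin K {y}) :=
    IntermediateField.adjoin.finiteDimensional hy
  have h1 : {σ : GK K | σ y = y} =
      ((IntermediateField.adjoin K {y}).fixingSubgroup : Set (GK K)) := by
    ext σ
    rw [SetLike.mem_coe, IntermediateField.mem_fixingSubgroup_iff]
    constructor
    · intro h x hx
      have h2 : IntermediateField.adjoin K {y} ≤ IntermediateField.fixedField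
          (Subgroup.zpowers (σ : GK K)) := by
        rw [IntermediateField.adjoin_le_iff]
        intro z hz
        rw [Set.mem_singleton_iff] at hz
        subst hz
        rw [SetLike.mem_coe, IntermediateField.mem_fixedField_iff]
        intro f hf
        obtain ⟨n, rfl⟩ := Subgroup.mem_zpowers_iff.1 hf
        have h3 : σ ∈ MulAction.stabilizer (GK K) z := h
        exact (MulAction.stabilizer (GK K) z).zpow_mem h3 n
      have h4 := h2 hx
      rw [IntermediateField.mem_fixedField_iff] at h4
      exact h4 σ (Subgroup.mem_zpowers σ)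
    · intro h
      exact h y (IntermediateField.mem_adjoin_simple_self K y)
  rw [h1]
  exact IntermediateField.fixingSubgroup_isOpen _

theorem phi_continuous : Continuous (phi K) := by
  rw [continuous_induced_rng]
  have h0 : Continuous fun σ : GK K => ((phi K).toMonoidHom σ : GQ) := by
    refine continuous_of_continuousAt_one ((Subgroup.subtype _).comp (phi K).toMonoidHom) ?_
    rw [ContinuousAt, map_one]
    intro s hs
    obtain ⟨E, hE, hEs⟩ := (krullTopology_mem_nhds_one_iff ℚ (AlgebraicClosure ℚ) s).1 hs
    obtain ⟨t, ht⟩ := Module.finite_def.1 hE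
    have h1 : (⋂ b ∈ t, {σ : GK K | σ ((clos K).symm (b : AlgebraicClosure ℚ)) =
        (clos K).symm (b : AlgebraicClosure ℚ)}) ∈ 𝓝 (1 : GK K) := by
      rw [Filter.biInter_finset_mem]
      intro b _
      exact (isOpen_stab K _).mem_nhds rfl
    rw [Filter.mem_map]
    refine Filter.mem_of_superset h1 fun σ hσ => hEs ?_
    show (phi K σ : GQ) ∈ E.fixingSubgroup
    rw [IntermediateField.mem_fixingSubgroup_iff]
    intro x hx
    have h2 : (⟨x, hx⟩ : E) ∈ Submodule.span ℚ (t : Set E) := by rw [ht]; trivial
    have key : ∀ z : E, z ∈ Submodule.span ℚ (t : Set E) →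
        (phi K σ : GQ) (z : AlgebraicClosure ℚ) = z := by
      intro z hz
      induction hz using Submodule.span_induction with
      | mem b hb =>
        have h3 := Set.mem_iInter₂.1 hσ b hb
        have h4 : σ ((clos K).symm (b : AlgebraicClosure ℚ)) =
          (clos K).symm (b : AlgebraicClosure ℚ) := h3
        rw [phi_apply, h4, RingEquiv.apply_symm_apply]
      | zero => exact map_zero _
      | add a b _ _ ha hb =>
        show (phi K σ : GQ) ((a : AlgebraicClosure ℚ) + b) = (a : AlgebraicClosure ℚ) + b
        rw [map_add, ha, hb]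
      | smul c a _ ha =>
        show (phi K σ : GQ) (c • (a : AlgebraicClosure ℚ)) = c • (a : AlgebraicClosure ℚ)
        rw [Algebra.smul_def, map_mul, ha, eq_ratCast, map_ratCast]
    exact key _ h2
  exact h0

/-- the homeomorphism -/
def phiH : GK K ≃ₜ (img K).fixingSubgroup :=
  Continuous.homeoOfEquivCompactToT2 (f := (phi K).toEquiv) (phi_continuous K)

end

end Run7.h457.SF
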