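import Pool.Agent.Run7.h457.PM.Defs
import Mathlib.Algebra.Module.Lattice

/-!
# Pure `ℤ`-motives over a number field: definitions

`Motive F` (the realizations of a pure motive), `Generated V P M` (the tannakian category generated by
the hyperkähler varieties of the family `V` and a motive `P`) and `Homs M N` (the homomorphisms given
by algebraic correspondences) are defined in `Pool.Agent.Run7.h457.PM.Defs`.
-/

set_option autoImplicit false

namespace Run7.h457.SF

open Matrix NumberField IsDedekindDomain Polynomial Run7.h457.PM Pool.Agent.W401.Cheb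
open Run7.h869.HG (Family)
open scoped ComplexOrder

noncomputable section

/-- A polarization `ψ` of the Hodge structure of `M` of weight `w`: a rational bilinear form,
multiplied by `(z * conj z) ^ (-w)` under the action of `z ∈ ℂ^×`, such that `ψ(conj x, C y)` is
hermitian and positive definite, where `C = h(√-1)`. -/
def IsPolarization {F : Type} [Field F] (M : Motive F) (w : ℕ) (ψ : Matrix M.κ M.κ ℚ) : Prop :=
  (∀ z : ℂ, z ≠ 0 → (M.h z)ᵀ * ψ.map (algebraMap ℚ ℂ) * M.h z =
    ((z * starRingEnd ℂ z) ^ w)⁻¹ • ψ.map (algebraMap ℚ ℂ)) ∧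
  (ψ.map (algebraMap ℚ ℂ) * M.h Complex.I).PosDef

variable {F : Type} [Field F] [NumberField F]

variable (F) in
/-- A `ℤ`-motive over the number field `F`: a motive `M` and a lattice `(T_p)` in its adelic
realization. For a finite place `v` of good reduction `poly v` is the characteristic polynomial of
the geometric Frobenius elements. -/
structure IMotive where
  M : Motive F
  T : ∀ (p : ℕ) [Fact p.Prime], Submodule ℤ_[p] (M.κ → ℚ_[p])
  poly : HeightOneSpectrum (𝓞 F) → ℤ[X]

/-- `X` is a pure `ℤ`-motive of rank `n` and weight `w ≥ 0` with pure good reduction outside the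
finite set `S` of places. There is no condition on the Hodge numbers, on the reduction at the places
in `S` and on the restriction of `M_p` to the decomposition groups at the places above `p`. -/
structure IMotive.IsPure (X : IMotive F) (S : Finset (HeightOneSpectrum (𝓞 F))) (n w : ℕ) :
    Prop where
  /-- the rank -/
  rank : Fintype.card X.M.κ = n
  /-- the group `ℂ^×` acts on `M_B ⊗ ℝ` -/
  real : ∀ z : ℂ, z ≠ 0 → (X.M.h z).map (starRingEnd ℂ) = X.M.h z
  /-- the Hodge structure has a polarization of weight `w` -/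
  polarization : ∃ ψ, IsPolarization X.M w ψ
  /-- the Galois representations are continuous -/
  continuous : ∀ (p : ℕ) [Fact p.Prime], Continuous (X.M.ρ p)
  /-- `M_p` is unramified at the places `v` outside `S` which are not above `p` -/
  unramified : ∀ v ∉ S, ∀ (p : ℕ) [Fact p.Prime], (p : 𝓞 F) ∉ v.asIdeal →
    ∀ σ : GK F, IsInert v σ → X.M.ρ p σ = 1
  /-- the characteristic polynomials of the geometric Frobenius elements at `v` are integral and
  independent of `p` -/
  frobenius : ∀ v ∉ S, ∀ (p : ℕ) [Fact p.Prime], (p : 𝓞 F) ∉ v.asIdeal →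
    ∀ σ : GK F, IsFrob v σ → (X.M.ρ p σ⁻¹).charpoly = (X.poly v).map (Int.castRingHom ℚ_[p])
  /-- the complex absolute values of the eigenvalues are `q_v ^ (w / 2)` -/
  pure : ∀ v ∉ S, ∀ z ∈ (X.poly v).aroots ℂ, ‖z‖ ^ 2 = (Ideal.absNorm v.asIdeal : ℝ) ^ w
  /-- `T_p` is a lattice in `M_p` -/
  lattice : ∀ (p : ℕ) [Fact p.Prime], Submodule.IsLattice ℚ_[p] (X.T p)
  /-- `T_p = ℤ_p ^ n` for almost all `p` -/
  standard : ∃ N : ℕ, ∀ (p : ℕ) [Fact p.Prime], N < p → ∀ x, x ∈ X.T p ↔ ∀ k, ‖x k‖ ≤ 1
  /-- the lattices are stable under the Galois group -/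
  stable : ∀ (p : ℕ) [Fact p.Prime] (σ : GK F), ∀ x ∈ X.T p, X.M.ρ p σ *ᵥ x ∈ X.T p

/-- The matrix `f` maps the lattice `T_p` of `X` onto the lattice `T_p` of `X'` (for invertible
`f`). -/
def MapsLattice (X X' : IMotive F) (p : ℕ) [Fact p.Prime] (f : Matrix X'.M.κ X.M.κ ℚ_[p]) : Prop :=
  ∀ x, x ∈ X.T p ↔ f *ᵥ x ∈ X'.T p

/-- `X` and `X'` are isomorphic up to isogenies of degree prime to the prime numbers in `Λ`: the
rational Hodge structures are isomorphic, by an isomorphism which maps the lattice `T_p` onto `T'_p`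
for all `p ∈ Λ`; the `p`-adic representations of the Galois group of `F` are isomorphic for all `p`,
by an isomorphism which maps `T_p` onto `T'_p` if `p ∈ Λ`; and if all morphisms of Hodge structures
from `M` to `M'` are given by algebraic correspondences, then there is an isomorphism from `M` to `M'`
of motives over `F` (an invariant homomorphism `a` which is invertible) which maps `T_p` onto `T'_p`
for all `p ∈ Λ`. -/
structure Isomorphic (Λ : Finset ℕ) (X X' : IMotive F) : Prop where
  hodge : ∃ (f : Matrix X'.M.κ X.M.κ ℚ) (g : Matrix X.M.κ X'.M.κ ℚ),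
    IsHodgeHom X.M X'.M f ∧ IsHodgeHom X'.M X.M g ∧ g * f = 1 ∧ f * g = 1 ∧
    ∀ (p : ℕ) [Fact p.Prime], p ∈ Λ → MapsLattice X X' p (padic p f)
  galois : ∀ (p : ℕ) [Fact p.Prime], ∃ (φ : Matrix X'.M.κ X.M.κ ℚ_[p])
    (ψ : Matrix X.M.κ X'.M.κ ℚ_[p]), IsGaloisHom X.M X'.M p ⊤ φ ∧ IsGaloisHom X'.M X.M p ⊤ ψ ∧
    ψ * φ = 1 ∧ φ * ψ = 1 ∧ (p ∈ Λ → MapsLattice X X' p φ)
  motive : ∀ H : Homs X.M X'.M, H.Hodge → ∃ a, (∀ σ, H.act σ a = a) ∧
    (∃ g : Matrix X.M.κ X'.M.κ ℚ, g * H.betti a = 1 ∧ H.betti a * g = 1) ∧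
    ∀ (p : ℕ) [Fact p.Prime], p ∈ Λ → MapsLattice X X' p (padic p (H.betti a))

/-- Any two of the motives in the set `𝒞` are objects of the tannakian category generated by a finite
family `V` of hyperkähler varieties over `F`, of any deformation types, and a motive `P` such that the
Mumford-Tate conjecture holds for `P ⊕ ⨁ H²(X_t)`. By the theorems of André and Commelin this is so for
`P = ℚ(1)`; hence one can take for `𝒞` the set of all objects of the tannakian category generated by
all hyperkähler varieties over `F`. -/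
def IsGenerated (𝒞 : Set (Motive F)) : Prop :=
  ∀ M ∈ 𝒞, ∀ M' ∈ 𝒞, ∃ (V : Family F) (P : Motive F), Nonempty V.T ∧
    (P.sum (two V)).MumfordTate ∧ Generated V P M ∧ Generated V P M'

end

end Run7.h457.SF
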