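import Pool.Agent.Run7.h457.SF.Place
import Pool.Agent.R390.SF.Tr

/-!
# Finitely many Frobenius traces determine all traces
-/

set_option autoImplicit false
set_option linter.unusedSectionVars false

namespace Run7.h457.SF

open Module Matrix NumberField IsDedekindDomain Topology Polynomial Pool.Agent.Y800
open Pool.Agent.W401.Cheb

noncomputable section

variable {K : Type} [Field K] [NumberField K] {n : ℕ}

/-- A compatible family of representations, with good reduction outside `S`. -/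
structure GoodSys (S : Finset (HeightOneSpectrum (𝓞 K)))
    (ρ : ∀ (p : ℕ) [Fact p.Prime], GK K →* GL (Fin n) ℚ_[p])
    (P : HeightOneSpectrum (𝓞 K) → ℤ[X]) : Prop where
  cont : ∀ (p : ℕ) [Fact p.Prime],
    Continuous fun g => (ρ p g : Matrix (Fin n) (Fin n) ℚ_[p])
  unram : ∀ v ∉ S, ∀ (p : ℕ) [Fact p.Prime], (p : 𝓞 K) ∉ v.asIdeal →
    ∀ σ : GK K, IsInert v σ → ρ p σ = 1
  frob : ∀ v ∉ S, ∀ (p : ℕ) [Fact p.Prime], (p : 𝓞 K) ∉ v.asIdeal →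
    ∀ σ : GK K, IsFrob v σ → (ρ p σ⁻¹ : Matrix (Fin n) (Fin n) ℚ_[p]).charpoly =
      (P v).map (Int.castRingHom ℚ_[p])

theorem GoodSys.trace (hn : 0 < n) {S : Finset (HeightOneSpectrum (𝓞 K))}
    {ρ : ∀ (p : ℕ) [Fact p.Prime], GK K →* GL (Fin n) ℚ_[p]}
    {P : HeightOneSpectrum (𝓞 K) → ℤ[X]} (h : GoodSys S ρ P) {v : HeightOneSpectrum (𝓞 K)}
    (hv : v ∉ S) (p : ℕ) [Fact p.Prime] (hp : (p : 𝓞 K) ∉ v.asIdeal) {σ : GK K}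
    (hσ : IsFrob v σ) : (ρ p σ⁻¹ : Matrix (Fin n) (Fin n) ℚ_[p]).trace =
      -(((P v).coeff (n - 1) : ℤ) : ℚ_[p]) := by
  have : Nonempty (Fin n) := ⟨⟨0, hn⟩⟩
  rw [Matrix.trace_eq_neg_charpoly_coeff, h.frob v hv p hp σ hσ,
    Fintype.card_fin, Polynomial.coeff_map]
  rfl

theorem GoodSys.cont_trace {S : Finset (HeightOneSpectrum (𝓞 K))}
    {ρ : ∀ (p : ℕ) [Fact p.Prime], GK K →* GL (Fin n) ℚ_[p]}
    {P : HeightOneSpectrum (𝓞 K) → ℤ[X]} (h : GoodSys S ρ P) (p : ℕ) [Fact p.Prime] :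
    Continuous fun g => (ρ p g : Matrix (Fin n) (Fin n) ℚ_[p]).trace :=
  (h.cont p).matrix_trace

/-- **Faltings.** -/
theorem traces_of_finite (hn : 0 < n) (S : Finset (HeightOneSpectrum (𝓞 K))) :
    ∃ 𝒬 : Finset (HeightOneSpectrum (𝓞 K)), (∀ v ∈ 𝒬, v ∉ S) ∧
      ∀ (ρ ρ' : ∀ (p : ℕ) [Fact p.Prime], GK K →* GL (Fin n) ℚ_[p])
        (P P' : HeightOneSpectrum (𝓞 K) → ℤ[X]), GoodSys S ρ P → GoodSys S ρ' P' →
        (∀ v ∈ 𝒬, (P v).coeff (n - 1) = (P' v).coeff (n - 1)) →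
        ∀ (ℓ : ℕ) [Fact ℓ.Prime] (g : GK K), (ρ ℓ g : Matrix (Fin n) (Fin n) ℚ_[ℓ]).trace =
          (ρ' ℓ g : Matrix (Fin n) (Fin n) ℚ_[ℓ]).trace := by
  classical
  have : Fact (Nat.Prime 2) := ⟨Nat.prime_two⟩
  let A : Type := Matrix (Fin n) (Fin n) ℚ_[2] × Matrix (Fin n) (Fin n) ℚ_[2]
  let D : ℕ := (2 ^ (2 * finrank ℚ_[2] A * finrank ℚ_[2] (⊤ : Submodule ℚ_[2] ℚ_[2]))) ^
    (2 ^ (2 * finrank ℚ_[2] A * finrank ℚ_[2] (⊤ : Submodule ℚ_[2] ℚ_[2])))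
  obtain ⟨𝒬, h𝒬, hD⟩ := exists_place_set (K := K) S S {2}
    (fun p hp => by rw [Finset.mem_singleton.1 hp]; exact Nat.prime_two) D
  have h2 : ∀ v ∈ 𝒬, ((2 : ℕ) : 𝓞 K) ∉ v.asIdeal := fun v hv =>
    (h𝒬 v hv).2 2 (Finset.mem_singleton_self 2)
  refine ⟨𝒬, fun v hv => (h𝒬 v hv).1, ?_⟩
  intro ρ ρ' P P' h h' heq
  let τ₁ : A →ₗ[ℚ_[2]] ℚ_[2] :=
    (Matrix.traceLinearMap (Fin n) ℚ_[2] ℚ_[2]) ∘ₗ LinearMap.fst ℚ_[2] _ _
  let τ₂ : A →ₗ[ℚ_[2]] ℚ_[2] :=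
    (Matrix.traceLinearMap (Fin n) ℚ_[2] ℚ_[2]) ∘ₗ LinearMap.snd ℚ_[2] _ _
  let r : GK K →* A :=
    MonoidHom.prod ((Units.coeHom _).comp (ρ 2)) ((Units.coeHom _).comp (ρ' 2))
  obtain ⟨H, hHn, hHo, hHi, hHker, hH⟩ := falt_core (ℓ := 2) (k := ℚ_[2]) r τ₁ τ₂
    (fun x y => Matrix.trace_mul_comm x.1 y.1) (fun x y => Matrix.trace_mul_comm x.2 y.2)
    (h.cont_trace 2) (h'.cont_trace 2) ⊤
    (fun g => Submodule.mem_top) (fun g => Submodule.mem_top)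
  have htr2 : ∀ g, τ₁ (r g) = τ₂ (r g) := by
    refine hH {x | ∃ v ∈ 𝒬, ∃ σ : GK K, IsFrob v σ ∧ x = σ⁻¹} ?_ ?_
    · intro g
      obtain ⟨v, hv, σ, hσ, hg⟩ := hD H hHo hHi (by
        intro v hv hv2 τ hτ
        apply hHker
        have hv2' := hv2 2 (Finset.mem_singleton_self 2)
        have e1 : ρ 2 τ = 1 := h.unram v hv 2 hv2' τ hτ
        have e2 : ρ' 2 τ = 1 := h'.unram v hv 2 hv2' τ hτ
        show (((ρ 2 τ : GL (Fin n) ℚ_[2]) : Matrix (Fin n) (Fin n) ℚ_[2]),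
          ((ρ' 2 τ : GL (Fin n) ℚ_[2]) : Matrix (Fin n) (Fin n) ℚ_[2])) = 1
        rw [e1, e2]
        rfl) g
      exact ⟨σ⁻¹, ⟨v, hv, σ, hσ, rfl⟩, hg⟩
    · rintro _ ⟨v, hv, σ, hσ, rfl⟩
      show (ρ 2 σ⁻¹ : Matrix (Fin n) (Fin n) ℚ_[2]).trace =
        (ρ' 2 σ⁻¹ : Matrix (Fin n) (Fin n) ℚ_[2]).trace
      rw [h.trace hn (h𝒬 v hv).1 2 (h2 v hv) hσ, h'.trace hn (h𝒬 v hv).1 2 (h2 v hv) hσ, heq v hv]
  intro ℓ hℓ g
  have hclosed : IsClosed {g : GK K | (ρ ℓ g : Matrix (Fin n) (Fin n) ℚ_[ℓ]).trace =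
      (ρ' ℓ g : Matrix (Fin n) (Fin n) ℚ_[ℓ]).trace} :=
    isClosed_eq (h.cont_trace ℓ) (h'.cont_trace ℓ)
  obtain ⟨B, hB⟩ := exists_above (K := K) {2, ℓ} (by
    intro p hp
    rcases Finset.mem_insert.1 hp with h | h
    · rw [h]; exact Nat.prime_two
    · rw [Finset.mem_singleton.1 h]; exact hℓ.out)
  refine closed_all _ hclosed (S ∪ B) ?_ g
  intro v hv σ hσ
  have hvS : v ∉ S := fun h => hv (Finset.mem_union_left _ h)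
  have hvB : ∀ p ∈ ({2, ℓ} : Finset ℕ), (p : 𝓞 K) ∉ v.asIdeal := fun p hp hpv =>
    hv (Finset.mem_union_right _ ((hB v).2 ⟨p, hp, hpv⟩))
  have hv2 := hvB 2 (Finset.mem_insert_self _ _)
  have hvℓ := hvB ℓ (Finset.mem_insert_of_mem (Finset.mem_singleton_self _))
  -- the Frobenius polynomials agree
  have hpoly : P v = P' v := by
    have h3 := charpoly_of_traces (ρ 2) (ρ' 2) htr2 σ⁻¹
    rw [h.frob v hvS 2 hv2 σ hσ, h'.frob v hvS 2 hv2 σ hσ] at h3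
    exact Polynomial.map_injective _ (RingHom.injective_int (Int.castRingHom ℚ_[2])) h3
  show (ρ ℓ σ⁻¹ : Matrix (Fin n) (Fin n) ℚ_[ℓ]).trace =
    (ρ' ℓ σ⁻¹ : Matrix (Fin n) (Fin n) ℚ_[ℓ]).trace
  rw [h.trace hn hvS ℓ hvℓ hσ, h'.trace hn hvS ℓ hvℓ hσ, hpoly]

/-- the coefficients of the Frobenius polynomials are bounded -/
theorem coeff_bound (P : ℤ[X]) (hm : P.Monic) (hd : P.natDegree = n) {q w : ℕ} (hq : 1 ≤ q)
    (hpure : ∀ z ∈ P.aroots ℂ, ‖z‖ ^ 2 = (q : ℝ) ^ w) (i : ℕ) :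
    |P.coeff i| ≤ ((q ^ w) ^ n * n.choose (n / 2) : ℕ) := by
  have h1 := Polynomial.coeff_bdd_of_roots_le (B := (q : ℝ) ^ w) (d := n)
    (algebraMap ℤ ℂ) hm (IsAlgClosed.splits _) hd.le ?_ i
  · have h2 : (1 : ℝ) ≤ (q : ℝ) ^ w := one_le_pow₀ (by exact_mod_cast hq)
    rw [max_eq_left h2, Polynomial.coeff_map] at h1
    have h3 : ‖(algebraMap ℤ ℂ) (P.coeff i)‖ = (|P.coeff i| : ℤ) := by
      rw [eq_intCast, Complex.norm_intCast]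
      push_cast
      rfl
    rw [h3] at h1
    exact_mod_cast h1
  · intro z hz
    have h2 := hpure z hz
    have h3 : (1 : ℝ) ≤ (q : ℝ) ^ w := one_le_pow₀ (by exact_mod_cast hq)
    nlinarith [norm_nonneg z, sq_nonneg (‖z‖ - 1)]

end

end Run7.h457.SF
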