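import Pool.Agent.R390.SF.JZ
import Mathlib.Algebra.Module.Lattice

/-!
# Stable lattices: bases, matrices, codes
-/

set_option autoImplicit false
set_option linter.unusedSectionVars false

namespace Run7.h457.SF

open Module Matrix Topology Pool.Agent.R390.SF

noncomputable section

section basis

variable {κ : Type} [Fintype κ] [DecidableEq κ] {n p : ℕ} [hp : Fact p.Prime]

/-- **Bases of lattices.** -/
theorem exists_frame (hκ : Fintype.card κ = n) (T : Submodule ℤ_[p] (κ → ℚ_[p]))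
    (hT : Submodule.IsLattice ℚ_[p] T) :
    ∃ (B : Matrix κ (Fin n) ℚ_[p]) (C : Matrix (Fin n) κ ℚ_[p]), C * B = 1 ∧ B * C = 1 ∧
      ∀ x, x ∈ T ↔ ∀ i, ‖(C *ᵥ x) i‖ ≤ 1 := by
  classical
  let b := Module.Free.chooseBasis ℤ_[p] T
  let B₀ : Basis _ ℚ_[p] (κ → ℚ_[p]) := b.extendOfIsLattice ℚ_[p]
  have hcard : Fintype.card (Module.Free.ChooseBasisIndex ℤ_[p] T) = n := by
    rw [← hκ]
    exact Fintype.card_congr (B₀.indexEquiv (Pi.basisFun ℚ_[p] κ))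
  let e := Fintype.equivFinOfCardEq hcard
  let B₁ := B₀.reindex e
  have hB₁ : ∀ i, B₁ i = (b (e.symm i) : κ → ℚ_[p]) := by
    intro i
    show (B₀.reindex e) i = _
    rw [Basis.reindex_apply]
    exact b.extendOfIsLattice_apply ℚ_[p] _
  refine ⟨(Pi.basisFun ℚ_[p] κ).toMatrix B₁, B₁.toMatrix (Pi.basisFun ℚ_[p] κ),
    Basis.toMatrix_mul_toMatrix_flip _ _, Basis.toMatrix_mul_toMatrix_flip _ _, fun x => ?_⟩
  have hrepr : B₁.toMatrix (Pi.basisFun ℚ_[p] κ) *ᵥ x = B₁.repr x := by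
    have h1 := Basis.toMatrix_mulVec_repr (b := Pi.basisFun ℚ_[p] κ) (b' := B₁) x
    exact h1
  rw [hrepr]
  constructor
  · intro hx i
    have h1 := b.sum_repr ⟨x, hx⟩
    have h2 : x = ∑ j, (algebraMap ℤ_[p] ℚ_[p] (b.repr ⟨x, hx⟩ (e.symm j))) • B₁ j := by
      have h3 := congrArg Subtype.val h1
      refine Eq.trans h3.symm ?_
      rw [Submodule.coe_sum, ← e.symm.sum_comp]
      refine Finset.sum_congr rfl fun j _ => ?_
      rw [hB₁, algebraMap_smul]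
      rfl
    rw [h2, map_sum]
    have h4 : (∑ j, B₁.repr ((algebraMap ℤ_[p] ℚ_[p] (b.repr ⟨x, hx⟩ (e.symm j))) • B₁ j)) i =
        algebraMap ℤ_[p] ℚ_[p] (b.repr ⟨x, hx⟩ (e.symm i)) := by
      rw [Finsupp.finsetSum_apply, Finset.sum_eq_single i]
      · rw [map_smul, Basis.repr_self, Finsupp.smul_apply, Finsupp.single_eq_same, smul_eq_mul,
          mul_one]
      · intro j _ hj
        rw [map_smul, Basis.repr_self, Finsupp.smul_apply, Finsupp.single_eq_of_ne (Ne.symm hj),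
          smul_zero]
      · intro h
        exact absurd (Finset.mem_univ i) h
    rw [h4]
    exact PadicInt.norm_le_one _
  · intro h
    let c : Fin n → ℤ_[p] := fun j => ⟨B₁.repr x j, h j⟩
    have h2 : x = ∑ j, c j • B₁ j := by
      refine Eq.trans (B₁.sum_repr x).symm ?_
      refine Finset.sum_congr rfl fun j _ => ?_
      rw [← algebraMap_smul ℚ_[p] (c j)]
      rfl
    rw [h2]
    refine T.sum_mem fun j _ => T.smul_mem _ ?_
    rw [hB₁]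
    exact (b (e.symm j)).2

end basis

section ultra

variable {n p : ℕ} [hp : Fact p.Prime]

/-- integral matrices -/
theorem mulVec_le {X : Matrix (Fin n) (Fin n) ℚ_[p]} (hX : ∀ i j, ‖X i j‖ ≤ 1)
    {y : Fin n → ℚ_[p]} (hy : ∀ i, ‖y i‖ ≤ 1) (i : Fin n) : ‖(X *ᵥ y) i‖ ≤ 1 := by
  show ‖∑ j, X i j * y j‖ ≤ 1
  refine IsUltrametricDist.norm_sum_le_of_forall_le_of_nonneg zero_le_one fun j _ => ?_
  rw [norm_mul]
  exact mul_le_one₀ (hX i j) (norm_nonneg _) (hy j)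

/-- perturbation of the identity -/
theorem perturb {E : Matrix (Fin n) (Fin n) ℚ_[p]} (hE : ∀ i j, ‖E i j‖ < 1)
    {y : Fin n → ℚ_[p]} (h : ∀ i, ‖(y + E *ᵥ y) i‖ ≤ 1) (i : Fin n) : ‖y i‖ ≤ 1 := by
  have hne : Nonempty (Fin n) := ⟨i⟩
  obtain ⟨k, hk⟩ := Finite.exists_max fun j => ‖y j‖
  refine (hk i).trans ?_
  by_contra hcon
  rw [not_le] at hcon
  have hpos : 0 < ‖y k‖ := zero_lt_one.trans hcon
  have h1 : ‖(E *ᵥ y) k‖ < ‖y k‖ := by
    have h2 : ∀ j, ‖E k j * y j‖ < ‖y k‖ := by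
      intro j
      rw [norm_mul]
      by_cases h0 : ‖y j‖ = 0
      · rw [h0, mul_zero]
        exact hpos
      · calc ‖E k j‖ * ‖y j‖ < 1 * ‖y j‖ :=
              mul_lt_mul_of_pos_right (hE k j) (lt_of_le_of_ne (norm_nonneg _) (Ne.symm h0))
          _ = ‖y j‖ := one_mul _
          _ ≤ ‖y k‖ := hk j
    obtain ⟨j, _, hj⟩ := IsUltrametricDist.exists_norm_finsetSum_le_of_nonempty
      (Finset.univ_nonempty (α := Fin n)) fun j => E k j * y j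
    exact lt_of_le_of_lt hj (h2 j)
  have h3 : ‖(y + E *ᵥ y) k‖ = ‖y k‖ := by
    rw [Pi.add_apply]
    have h4 := IsUltrametricDist.norm_add_eq_max_of_norm_ne_norm (ne_of_gt h1)
    rw [h4, max_eq_left h1.le]
  have h5 := h k
  rw [h3] at h5
  exact absurd hcon (not_lt.2 h5)

variable {κ κ' : Type} [Fintype κ] [DecidableEq κ] [Fintype κ'] [DecidableEq κ']

theorem unit_vec (j : Fin n) (k : Fin n) : ‖((1 : Matrix (Fin n) (Fin n) ℚ_[p]) *ᵥ Pi.single j 1) k‖ ≤ 1 := by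
  rw [Matrix.one_mulVec]
  by_cases hk : k = j
  · subst hk
    rw [Pi.single_eq_same, norm_one]
  · rw [Pi.single_eq_of_ne hk, norm_zero]
    exact zero_le_one

/-- an isomorphism of lattices has integral entries -/
theorem entries {T : Submodule ℤ_[p] (κ → ℚ_[p])} {T' : Submodule ℤ_[p] (κ' → ℚ_[p])}
    {B : Matrix κ (Fin n) ℚ_[p]} {C : Matrix (Fin n) κ ℚ_[p]}
    {C' : Matrix (Fin n) κ' ℚ_[p]} (hCB : C * B = 1)
    (hT : ∀ x, x ∈ T ↔ ∀ i, ‖(C *ᵥ x) i‖ ≤ 1) (hT' : ∀ x, x ∈ T' ↔ ∀ i, ‖(C' *ᵥ x) i‖ ≤ 1)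
    {φ : Matrix κ' κ ℚ_[p]} (hφ : ∀ x, x ∈ T → φ *ᵥ x ∈ T') (i j : Fin n) :
    ‖(C' * φ * B) i j‖ ≤ 1 := by
  have h3 : B *ᵥ Pi.single j 1 ∈ T := by
    rw [hT, Matrix.mulVec_mulVec, hCB]
    exact unit_vec j
  have h4 := (hT' _).1 (hφ _ h3) i
  rw [Matrix.mulVec_mulVec, Matrix.mulVec_mulVec, Matrix.mulVec_single_one] at h4
  exact h4

/-- **The matrices near an isomorphism of lattices are isomorphisms of lattices.** -/
theorem lattice_nhds {T : Submodule ℤ_[p] (κ → ℚ_[p])} {T' : Submodule ℤ_[p] (κ' → ℚ_[p])}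
    {B : Matrix κ (Fin n) ℚ_[p]} {C : Matrix (Fin n) κ ℚ_[p]} {B' : Matrix κ' (Fin n) ℚ_[p]}
    {C' : Matrix (Fin n) κ' ℚ_[p]} (hCB : C * B = 1) (hBC : B * C = 1) (hCB' : C' * B' = 1)
    (hB' : B' * C' = 1)
    (hT : ∀ x, x ∈ T ↔ ∀ i, ‖(C *ᵥ x) i‖ ≤ 1) (hT' : ∀ x, x ∈ T' ↔ ∀ i, ‖(C' *ᵥ x) i‖ ≤ 1)
    {φ : Matrix κ' κ ℚ_[p]} {ψ : Matrix κ κ' ℚ_[p]} (h1 : ψ * φ = 1) (h2 : φ * ψ = 1)
    (hφ : ∀ x, x ∈ T ↔ φ *ᵥ x ∈ T') :
    {X : Matrix κ' κ ℚ_[p] | ∀ x, x ∈ T ↔ X *ᵥ x ∈ T'} ∈ 𝓝 φ := by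
  have hY := entries hCB hT hT' fun x hx => (hφ x).1 hx
  have hZ : ∀ i j, ‖(C * ψ * B') i j‖ ≤ 1 := entries hCB' hT' hT fun x hx => by
    rw [hφ, Matrix.mulVec_mulVec, h2, Matrix.one_mulVec]
    exact hx
  -- the set of the matrices which are near `φ`
  have hopen : {X : Matrix κ' κ ℚ_[p] | ∀ i j, ‖(C' * X * B - C' * φ * B) i j‖ < 1} ∈ 𝓝 φ := by
    have hc : Continuous fun X : Matrix κ' κ ℚ_[p] => C' * X * B - C' * φ * B :=
      ((continuous_const.matrix_mul continuous_id).matrix_mul continuous_const).sub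
        continuous_const
    have h3 : {X : Matrix κ' κ ℚ_[p] | ∀ i j, ‖(C' * X * B - C' * φ * B) i j‖ < 1} =
        ⋂ i, ⋂ j, {X | ‖(C' * X * B - C' * φ * B) i j‖ < 1} := by
      ext X
      simp only [Set.mem_ofPred_eq, Set.mem_iInter]
    rw [h3]
    refine Filter.iInter_mem.2 fun i => Filter.iInter_mem.2 fun j => ?_
    refine IsOpen.mem_nhds ?_ ?_
    · exact isOpen_lt ((hc.matrix_elem i j).norm) continuous_const
    · show ‖(C' * φ * B - C' * φ * B) i j‖ < 1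
      rw [sub_self, Matrix.zero_apply, norm_zero]
      exact one_pos
  refine Filter.mem_of_superset hopen fun X hX x => ?_
  set E := C' * X * B - C' * φ * B with hEdef
  have hE : ∀ i j, ‖E i j‖ < 1 := hX
  have hXE : C' * X = (C' * φ * B + E) * C := by
    rw [hEdef, add_sub_cancel, Matrix.mul_assoc, hBC, Matrix.mul_one]
  have hXx : C' *ᵥ X *ᵥ x = (C' * φ * B + E) *ᵥ (C *ᵥ x) := by
    rw [Matrix.mulVec_mulVec, hXE, Matrix.mulVec_mulVec]
  constructor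
  · intro hx
    rw [hT', hXx]
    refine mulVec_le (fun i j => ?_) ((hT x).1 hx)
    rw [Matrix.add_apply]
    exact (Padic.nonarchimedean _ _).trans (max_le (hY i j) (hE i j).le)
  · intro hx
    rw [hT]
    have h3 : (C * ψ * B') *ᵥ (C' *ᵥ X *ᵥ x) = C *ᵥ x + (C * ψ * B' * E) *ᵥ (C *ᵥ x) := by
      have h4 : C * ψ * B' * (C' * φ * B) = 1 := by
        calc C * ψ * B' * (C' * φ * B) = C * (ψ * ((B' * C') * φ)) * B := by
              simp only [Matrix.mul_assoc]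
          _ = 1 := by rw [hB', Matrix.one_mul, h1, Matrix.mul_one, hCB]
      rw [hXx, Matrix.mulVec_mulVec, Matrix.mul_add, h4, Matrix.add_mulVec, Matrix.one_mulVec]
    refine perturb (E := C * ψ * B' * E) (fun i j => ?_) fun i => ?_
    · rw [Matrix.mul_apply]
      have hne : Nonempty (Fin n) := ⟨i⟩
      obtain ⟨k, _, hk⟩ := IsUltrametricDist.exists_norm_finsetSum_le_of_nonempty
        (Finset.univ_nonempty (α := Fin n)) fun k => (C * ψ * B') i k * E k j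
      refine lt_of_le_of_lt hk ?_
      rw [norm_mul]
      calc ‖(C * ψ * B') i k‖ * ‖E k j‖ ≤ 1 * ‖E k j‖ :=
            mul_le_mul_of_nonneg_right (hZ i k) (norm_nonneg _)
        _ = ‖E k j‖ := one_mul _
        _ < 1 := hE k j
    · rw [← h3]
      exact mulVec_le hZ ((hT' _).1 hx) i

end ultra

section rep

variable {κ : Type} [Fintype κ] [DecidableEq κ] {n p : ℕ} [hp : Fact p.Prime] {G : Type} [Group G]

/-- **The matrices of the action on a stable lattice.** -/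
theorem exists_rep {T : Submodule ℤ_[p] (κ → ℚ_[p])}
    {B : Matrix κ (Fin n) ℚ_[p]} {C : Matrix (Fin n) κ ℚ_[p]} (hCB : C * B = 1) (hBC : B * C = 1)
    (hT : ∀ x, x ∈ T ↔ ∀ i, ‖(C *ᵥ x) i‖ ≤ 1) (ρ : G →* Matrix κ κ ℚ_[p])
    (hst : ∀ g, ∀ x ∈ T, ρ g *ᵥ x ∈ T) :
    ∃ r : G →* GL (Fin n) ℤ_[p], ∀ g, (toQ r g : Matrix (Fin n) (Fin n) ℚ_[p]) = C * ρ g * B := by
  have h1 : ∀ g i j, ‖(C * ρ g * B) i j‖ ≤ 1 := fun g => entries hCB hT hT (hst g)
  let z : G →* Matrix (Fin n) (Fin n) ℤ_[p] :=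
    { toFun := fun g => Matrix.of fun i j => ⟨(C * ρ g * B) i j, h1 g i j⟩
      map_one' := by
        apply qm_inj
        have h2 : qm (Matrix.of fun i j => (⟨(C * ρ 1 * B) i j, h1 1 i j⟩ : ℤ_[p])) =
          C * ρ 1 * B := rfl
        rw [h2, map_one, map_one, Matrix.mul_one, hCB]
      map_mul' := fun g g' => by
        apply qm_inj
        refine Eq.trans ?_ (map_mul qm _ _).symm
        show C * ρ (g * g') * B = (C * ρ g * B) * (C * ρ g' * B)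
        calc C * ρ (g * g') * B = C * (ρ g * ρ g') * B := by rw [map_mul]
          _ = C * (ρ g * ((B * C) * ρ g')) * B := by rw [hBC, Matrix.one_mul]
          _ = _ := by simp only [Matrix.mul_assoc] }
  exact ⟨z.toHomUnits, fun g => rfl⟩

theorem charpoly_frame {R : Type} [Field R] {B : Matrix κ (Fin n) R} {C : Matrix (Fin n) κ R}
    (hCB : C * B = 1) (hBC : B * C = 1) (X : Matrix κ κ R) : (C * X * B).charpoly = X.charpoly := by
  unfold Matrix.charpoly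
  have h1 : (C * X * B).charmatrix = C.map Polynomial.C * X.charmatrix * B.map Polynomial.C := by
    unfold Matrix.charmatrix
    have h2 : (Polynomial.C : R →+* _).mapMatrix (C * X * B) =
        C.map Polynomial.C * (Polynomial.C : R →+* _).mapMatrix X * B.map Polynomial.C := by
      show (C * X * B).map Polynomial.C = C.map Polynomial.C * X.map Polynomial.C * B.map Polynomial.C
      rw [Matrix.map_mul, Matrix.map_mul]
    have h3 : C.map Polynomial.C * B.map Polynomial.C = (1 : Matrix (Fin n) (Fin n) (Polynomial R)) := by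
      rw [← Matrix.map_mul, hCB]
      exact Matrix.map_one _ (map_zero _) (map_one _)
    rw [h2, Matrix.mul_sub, Matrix.sub_mul]
    congr 1
    rw [Matrix.scalar_apply, Matrix.scalar_apply, ← Matrix.smul_one_eq_diagonal,
      ← Matrix.smul_one_eq_diagonal, Matrix.mul_smul, Matrix.smul_mul, Matrix.mul_one, h3]
  rw [h1]
  refine Matrix.det_conj_of_mul_eq_one ?_ ?_
  · rw [← Matrix.map_mul, hCB]
    exact Matrix.map_one _ (map_zero _) (map_one _)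
  · rw [← Matrix.map_mul, hBC]
    exact Matrix.map_one _ (map_zero _) (map_one _)

/-- semisimplicity -/
theorem semis_frame {B : Matrix κ (Fin n) ℚ_[p]} {C : Matrix (Fin n) κ ℚ_[p]} (hCB : C * B = 1)
    (hBC : B * C = 1) (ρ : G →* Matrix κ κ ℚ_[p]) (r : G →* GL (Fin n) ℚ_[p])
    (hr : ∀ g, (r g : Matrix (Fin n) (Fin n) ℚ_[p]) = C * ρ g * B)
    (hss : ∀ U : Submodule ℚ_[p] (κ → ℚ_[p]), (∀ g, ∀ x ∈ U, ρ g *ᵥ x ∈ U) →
      ∃ U' : Submodule ℚ_[p] (κ → ℚ_[p]), (∀ g, ∀ x ∈ U', ρ g *ᵥ x ∈ U') ∧ IsCompl U U') :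
    Semis r := by
  intro U hU
  let L : (κ → ℚ_[p]) ≃ₗ[ℚ_[p]] (Fin n → ℚ_[p]) :=
    LinearEquiv.ofLinearMap (Matrix.toLin' C) (Matrix.toLin' B)
      (by rw [← Matrix.toLin'_mul, hCB, Matrix.toLin'_one])
      (by rw [← Matrix.toLin'_mul, hBC, Matrix.toLin'_one])
  have hL : ∀ x, L x = C *ᵥ x := fun x => Matrix.toLin'_apply _ _
  have hcomm : ∀ g x, (r g : Matrix (Fin n) (Fin n) ℚ_[p]) *ᵥ (L x) = L (ρ g *ᵥ x) := by
    intro g x
    rw [hL, hL, hr, Matrix.mulVec_mulVec, Matrix.mulVec_mulVec, Matrix.mul_assoc, hBC,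
      Matrix.mul_one]
  obtain ⟨U', hU', hc⟩ := hss (U.comap (L : (κ → ℚ_[p]) →ₗ[ℚ_[p]] (Fin n → ℚ_[p]))) (by
    intro g x hx
    show L (ρ g *ᵥ x) ∈ U
    rw [← hcomm]
    exact hU g _ hx)
  refine ⟨U'.map (L : (κ → ℚ_[p]) →ₗ[ℚ_[p]] (Fin n → ℚ_[p])), ?_, ?_⟩
  · rintro g _ ⟨x, hx, rfl⟩
    exact ⟨ρ g *ᵥ x, hU' g x hx, (hcomm g x).symm⟩
  · have h1 := (Submodule.orderIsoMapComap L).isCompl hc
    have h2 : (Submodule.orderIsoMapComap L) (U.comap (L : (κ → ℚ_[p]) →ₗ[ℚ_[p]] (Fin n → ℚ_[p]))) =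
        U := Submodule.map_comap_eq_of_surjective L.surjective U
    rw [h2] at h1
    exact h1

end rep

section code

variable {n ℓ : ℕ} {G : Type} [Group G]

/-- `B` is an intertwiner from `r` to `r₀` with nonzero determinant -/
def Inter [Fact ℓ.Prime] (r₀ r : G →* GL (Fin n) ℤ_[ℓ]) (B : Matrix (Fin n) (Fin n) ℤ_[ℓ]) : Prop :=
  B.det ≠ 0 ∧ ∀ g, (r₀ g : Matrix (Fin n) (Fin n) ℤ_[ℓ]) * B = B * r g

theorem exists_inter [hℓ : Fact ℓ.Prime] {r₀ r : G →* GL (Fin n) ℤ_[ℓ]} (h₀ : Semis (toQ r₀))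
    (h : Semis (toQ r)) (htr : ∀ g, (toQ r g : Matrix (Fin n) (Fin n) ℚ_[ℓ]).trace =
      (toQ r₀ g : Matrix (Fin n) (Fin n) ℚ_[ℓ]).trace) :
    ∃ B : Matrix (Fin n) (Fin n) ℤ_[ℓ], Inter r₀ r B := by
  obtain ⟨A, hA⟩ := bn_ss h h₀ htr
  obtain ⟨s, B, hB⟩ := exists_scale (A : Matrix (Fin n) (Fin n) ℚ_[ℓ])
  have hℓ0 : (ℓ : ℚ_[ℓ]) ≠ 0 := by exact_mod_cast hℓ.out.ne_zero
  refine ⟨B, ?_, fun g => ?_⟩
  · intro h0
    have h1 := qm_det B
    rw [h0, map_zero, hB, Matrix.det_smul] at h1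
    have h3 : IsUnit (A : Matrix (Fin n) (Fin n) ℚ_[ℓ]).det :=
      (Matrix.isUnit_iff_isUnit_det _).1 A.isUnit
    exact mul_ne_zero (pow_ne_zero _ (pow_ne_zero _ hℓ0)) h3.ne_zero h1
  · apply qm_inj
    rw [map_mul, map_mul, hB, Matrix.mul_smul, Matrix.smul_mul]
    congr 1
    exact hA g

/-- an intertwiner of maximal determinant -/
theorem exists_max [hℓ : Fact ℓ.Prime] {r₀ r : G →* GL (Fin n) ℤ_[ℓ]}
    (hex : ∃ B : Matrix (Fin n) (Fin n) ℤ_[ℓ], Inter r₀ r B) :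
    ∃ B : Matrix (Fin n) (Fin n) ℤ_[ℓ], Inter r₀ r B ∧
      ∀ B' : Matrix (Fin n) (Fin n) ℤ_[ℓ],
        (∀ g, (r₀ g : Matrix (Fin n) (Fin n) ℤ_[ℓ]) * B' = B' * r g) → ‖B'.det‖ ≤ ‖B.det‖ := by
  obtain ⟨B, hB, hmin⟩ := (measure fun B : Matrix (Fin n) (Fin n) ℤ_[ℓ] =>
    B.det.valuation).wf.has_min {B | Inter r₀ r B} hex
  refine ⟨B, hB, fun B' hB' => ?_⟩
  by_cases h0 : B'.det = 0
  · rw [h0, norm_zero]
    exact norm_nonneg _
  · have h1 : ¬ B'.det.valuation < B.det.valuation := hmin B' ⟨h0, hB'⟩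
    rw [PadicInt.norm_eq_zpow_neg_valuation h0, PadicInt.norm_eq_zpow_neg_valuation hB.1]
    refine zpow_le_zpow_right₀ (by exact_mod_cast hℓ.out.one_lt.le) ?_
    rw [neg_le_neg_iff]
    exact_mod_cast not_lt.1 h1

/-- **The lattices in a semisimple representation have finitely many isomorphism classes.** -/
theorem local_code [hℓ : Fact ℓ.Prime] (r₀ : G →* GL (Fin n) ℤ_[ℓ]) (h₀ : Semis (toQ r₀)) :
    ∃ (k : ℕ) (c : (G →* GL (Fin n) ℤ_[ℓ]) → ℕ), (∀ r, c r < k) ∧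
      ∀ r r' : G →* GL (Fin n) ℤ_[ℓ], Semis (toQ r) → Semis (toQ r') →
        (∀ g, (toQ r g : Matrix (Fin n) (Fin n) ℚ_[ℓ]).trace =
          (toQ r₀ g : Matrix (Fin n) (Fin n) ℚ_[ℓ]).trace) →
        (∀ g, (toQ r' g : Matrix (Fin n) (Fin n) ℚ_[ℓ]).trace =
          (toQ r₀ g : Matrix (Fin n) (Fin n) ℚ_[ℓ]).trace) →
        c r = c r' → ∃ A : GL (Fin n) ℤ_[ℓ], ∀ g, r' g = A * r g * A⁻¹ := by
  classical
  obtain ⟨m, hm⟩ := jz r₀ h₀
  have hne : NeZero (ℓ ^ m) := ⟨pow_ne_zero _ hℓ.out.ne_zero⟩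
  obtain ⟨k, ⟨e⟩⟩ := Finite.exists_equiv_fin (Fin n → Fin n → ZMod (ℓ ^ m))
  refine ⟨k, fun r => if h : ∃ B : Matrix (Fin n) (Fin n) ℤ_[ℓ], Inter r₀ r B then
        (e (fun i j => PadicInt.toZModPow m ((exists_max h).choose i j)) : ℕ) else 0, ?_, ?_⟩
  · intro T
    dsimp only
    split_ifs with h
    · exact Fin.is_lt _
    · exact lt_of_le_of_lt (Nat.zero_le _) (e (fun _ _ => 0)).is_lt
  · intro r r' hs hs' ht ht' hc
    have h := exists_inter h₀ hs ht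
    have h' := exists_inter h₀ hs' ht'
    dsimp only at hc
    rw [dif_pos h, dif_pos h'] at hc
    have h1 := e.injective (Fin.ext hc)
    obtain ⟨h2, h3⟩ := (exists_max h).choose_spec
    obtain ⟨h2', h3'⟩ := (exists_max h').choose_spec
    obtain ⟨D, hD⟩ := hm r _ h2.2 h2.1 h3
    obtain ⟨D', hD'⟩ := hm r' _ h2'.2 h2'.1 h3'
    exact lat_congr2 hD hD' h2.2 h2'.2 (fun i j => congrFun (congrFun h1 i) j)

end code

end

end Run7.h457.SF
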