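import Pool.Agent.Run7.h457.SF.Semi
import Pool.Agent.Run7.h457.SF.Falt
import Pool.Agent.Run7.h457.SF.Lat
import Pool.Agent.Run7.h457.SF.Approx

/-!
# Finiteness of the pure motives generated by hyperkähler varieties
-/

set_option autoImplicit false
set_option linter.unusedSectionVars false

namespace Run7.h457.SF

open Module Matrix NumberField IsDedekindDomain Topology Polynomial Run7.h457.PM
open Pool.Agent.W401.Cheb
open Run7.h869.HG (Family)
open Pool.Agent.R390.SF (toQ toQ_val qm qm_inj Semis bn_ss)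

noncomputable section

variable {F : Type} [Field F] [NumberField F]

/-! ## Frames -/

/-- Pure motives with semisimple realizations. -/
structure Good (S : Finset (HeightOneSpectrum (𝓞 F))) (n w : ℕ) (X : IMotive F) : Prop where
  pure : X.IsPure S n w
  rep : ∀ (p : ℕ) [Fact p.Prime], X.M.Rep p
  semis : ∀ (p : ℕ) [Fact p.Prime] (U : Submodule ℚ_[p] (X.M.κ → ℚ_[p])),
    (∀ σ, ∀ x ∈ U, X.M.ρ p σ *ᵥ x ∈ U) →
    ∃ U' : Submodule ℚ_[p] (X.M.κ → ℚ_[p]), (∀ σ, ∀ x ∈ U', X.M.ρ p σ *ᵥ x ∈ U') ∧ IsCompl U U'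

/-- A basis of the lattice, and the matrices `r` of the action of the Galois group. -/
structure Frame (X : IMotive F) (n p : ℕ) [Fact p.Prime] (r : GK F →* GL (Fin n) ℤ_[p])
    (B : Matrix X.M.κ (Fin n) ℚ_[p]) (C : Matrix (Fin n) X.M.κ ℚ_[p]) : Prop where
  cb : C * B = 1
  bc : B * C = 1
  lat : ∀ x, x ∈ X.T p ↔ ∀ i, ‖(C *ᵥ x) i‖ ≤ 1
  act : ∀ g, (toQ r g : Matrix (Fin n) (Fin n) ℚ_[p]) = C * X.M.ρ p g * B
  ss : Semis (toQ r)

variable {S : Finset (HeightOneSpectrum (𝓞 F))} {n w : ℕ}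

theorem exists_fr {X : IMotive F} (h : Good S n w X) (p : ℕ) [Fact p.Prime] :
    ∃ r B C, Frame X n p r B C := by
  obtain ⟨B, C, h1, h2, h3⟩ := exists_frame h.pure.rank (X.T p) (h.pure.lattice p)
  obtain ⟨ρ, hρ⟩ := h.rep p
  obtain ⟨r, hr⟩ := exists_rep h1 h2 h3 ρ (fun g x hx => by
    rw [hρ]
    exact h.pure.stable p g x hx)
  refine ⟨r, B, C, h1, h2, h3, fun g => by rw [hr, hρ], ?_⟩
  refine semis_frame h1 h2 ρ (toQ r) hr fun U hU => ?_
  obtain ⟨U', hU', hc⟩ := h.semis p U fun g x hx => by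
    rw [← hρ]
    exact hU g x hx
  exact ⟨U', fun g x hx => by rw [hρ]; exact hU' g x hx, hc⟩

theorem Frame.trace {X : IMotive F} {p : ℕ} [Fact p.Prime] {r : GK F →* GL (Fin n) ℤ_[p]}
    {B : Matrix X.M.κ (Fin n) ℚ_[p]} {C : Matrix (Fin n) X.M.κ ℚ_[p]} (f : Frame X n p r B C)
    (g : GK F) : (toQ r g : Matrix (Fin n) (Fin n) ℚ_[p]).trace = (X.M.ρ p g).trace := by
  rw [f.act, Matrix.trace_mul_comm, ← Matrix.mul_assoc, f.bc, Matrix.one_mul]

/-- The representations on the lattices form a compatible family. -/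
theorem goodSys {X : IMotive F} (h : Good S n w X)
    (r : ∀ (p : ℕ) [Fact p.Prime], GK F →* GL (Fin n) ℤ_[p])
    (hr : ∀ (p : ℕ) [Fact p.Prime], ∃ B C, Frame X n p (r p) B C) :
    GoodSys S (fun p _ => toQ (r p)) X.poly where
  cont p _ := by
    obtain ⟨B, C, f⟩ := hr p
    have h1 : (fun g => (toQ (r p) g : Matrix (Fin n) (Fin n) ℚ_[p])) =
        fun g => C * X.M.ρ p g * B := funext fun g => f.act g
    rw [h1]
    exact (continuous_const.matrix_mul (h.pure.continuous p)).matrix_mul continuous_const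
  unram v hv p _ hp σ hσ := by
    obtain ⟨B, C, f⟩ := hr p
    apply Units.ext
    rw [f.act, h.pure.unramified v hv p hp σ hσ, Matrix.mul_one, f.cb]
    rfl
  frob v hv p _ hp σ hσ := by
    obtain ⟨B, C, f⟩ := hr p
    rw [f.act, charpoly_frame f.cb f.bc]
    exact h.pure.frobenius v hv p hp σ hσ

/-- The Frobenius polynomials are monic of degree `n`. -/
theorem poly_monic {X : IMotive F} (h : X.IsPure S n w) {v : HeightOneSpectrum (𝓞 F)}
    (hv : v ∉ S) : (X.poly v).Monic ∧ (X.poly v).natDegree = n := by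
  obtain ⟨p, hp, hpv⟩ : ∃ p : ℕ, p.Prime ∧ (p : 𝓞 F) ∉ v.asIdeal := by
    by_cases h2 : ((2 : ℕ) : 𝓞 F) ∈ v.asIdeal
    · refine ⟨3, Nat.prime_three, fun h3 => v.isPrime.ne_top ?_⟩
      rw [Ideal.eq_top_iff_one]
      have h4 := v.asIdeal.sub_mem h3 h2
      have h5 : ((3 : ℕ) : 𝓞 F) - ((2 : ℕ) : 𝓞 F) = 1 := by
        push_cast
        norm_num
      rwa [h5] at h4
    · exact ⟨2, Nat.prime_two, h2⟩
  have : Fact p.Prime := ⟨hp⟩
  obtain ⟨σ, hσ⟩ := Pool.Agent.W401.Frob.exists_frob v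
  have h1 := h.frobenius v hv p hpv σ hσ
  have hinj := RingHom.injective_int (Int.castRingHom ℚ_[p])
  constructor
  · refine Polynomial.monic_of_injective hinj ?_
    rw [← h1]
    exact Matrix.charpoly_monic _
  · rw [← Polynomial.natDegree_map_eq_of_injective hinj, ← h1, Matrix.charpoly_natDegree_eq_dim]
    exact h.rank

/-! ## Isomorphisms -/

section iso

variable {X X' : IMotive F} {p : ℕ} [Fact p.Prime] {r r' : GK F →* GL (Fin n) ℤ_[p]}
  {B : Matrix X.M.κ (Fin n) ℚ_[p]} {C : Matrix (Fin n) X.M.κ ℚ_[p]}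
  {B' : Matrix X'.M.κ (Fin n) ℚ_[p]} {C' : Matrix (Fin n) X'.M.κ ℚ_[p]}

theorem iso_of_conj (f : Frame X n p r B C) (f' : Frame X' n p r' B' C')
    {A A' : Matrix (Fin n) (Fin n) ℚ_[p]} (e1 : A' * A = 1) (e2 : A * A' = 1)
    (hA : ∀ g, (toQ r' g : Matrix (Fin n) (Fin n) ℚ_[p]) * A = A * toQ r g) :
    IsGaloisHom X.M X'.M p ⊤ (B' * A * C) ∧ IsGaloisHom X'.M X.M p ⊤ (B * A' * C') ∧
    (B * A' * C') * (B' * A * C) = 1 ∧ (B' * A * C) * (B * A' * C') = 1 := by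
  have h1 : B * A' * C' * (B' * A * C) = 1 := by
    calc B * A' * C' * (B' * A * C) = B * (A' * ((C' * B') * A)) * C := by
          simp only [Matrix.mul_assoc]
      _ = 1 := by rw [f'.cb, Matrix.one_mul, e1, Matrix.mul_one, f.bc]
  have h2 : B' * A * C * (B * A' * C') = 1 := by
    calc B' * A * C * (B * A' * C') = B' * (A * ((C * B) * A')) * C' := by
          simp only [Matrix.mul_assoc]
      _ = 1 := by rw [f.cb, Matrix.one_mul, e2, Matrix.mul_one, f'.bc]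
  have h3 : IsGaloisHom X.M X'.M p ⊤ (B' * A * C) := by
    intro σ _
    calc X'.M.ρ p σ * (B' * A * C) = (B' * C') * X'.M.ρ p σ * (B' * A * C) := by
          rw [f'.bc, Matrix.one_mul]
      _ = B' * ((C' * X'.M.ρ p σ * B') * A) * C := by simp only [Matrix.mul_assoc]
      _ = B' * (A * (C * X.M.ρ p σ * B)) * C := by
          rw [← f'.act, hA, f.act]
      _ = B' * A * C * X.M.ρ p σ * (B * C) := by simp only [Matrix.mul_assoc]
      _ = B' * A * C * X.M.ρ p σ := by rw [f.bc, Matrix.mul_one]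
  exact ⟨h3, fun σ hσ => inv_hom h1 h2 (h3 σ hσ), h1, h2⟩

theorem maps_of_conj (f : Frame X n p r B C) (f' : Frame X' n p r' B' C') (A : GL (Fin n) ℤ_[p]) :
    MapsLattice X X' p (B' * qm (A : Matrix (Fin n) (Fin n) ℤ_[p]) * C) := by
  have hint : ∀ (D : Matrix (Fin n) (Fin n) ℤ_[p]) i j, ‖qm D i j‖ ≤ 1 :=
    fun D i j => (D i j).2
  have hinv : qm ((A⁻¹ : GL (Fin n) ℤ_[p]) : Matrix (Fin n) (Fin n) ℤ_[p]) *
      qm (A : Matrix (Fin n) (Fin n) ℤ_[p]) = 1 := by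
    rw [← map_mul, ← Units.val_mul, inv_mul_cancel, Units.val_one, map_one]
  intro x
  have h1 : C' *ᵥ ((B' * qm (A : Matrix (Fin n) (Fin n) ℤ_[p]) * C) *ᵥ x) =
      qm (A : Matrix (Fin n) (Fin n) ℤ_[p]) *ᵥ (C *ᵥ x) := by
    rw [Matrix.mulVec_mulVec, Matrix.mulVec_mulVec, ← Matrix.mul_assoc, ← Matrix.mul_assoc, f'.cb,
      Matrix.one_mul]
  rw [f.lat, f'.lat, h1]
  constructor
  · exact fun h => mulVec_le (hint _) h
  · intro h
    have h2 := mulVec_le (hint ((A⁻¹ : GL (Fin n) ℤ_[p]) : Matrix (Fin n) (Fin n) ℤ_[p])) h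
    rw [Matrix.mulVec_mulVec, hinv, Matrix.one_mulVec] at h2
    exact h2

end iso

/-- **Approximation of isomorphisms.** -/
theorem near_iso {X X' : IMotive F} (hX : Fintype.card X.M.κ = n) (hX' : Fintype.card X'.M.κ = n)
    (hT : ∀ (p : ℕ) [Fact p.Prime], Submodule.IsLattice ℚ_[p] (X.T p))
    (hT' : ∀ (p : ℕ) [Fact p.Prime], Submodule.IsLattice ℚ_[p] (X'.T p))
    (W : Submodule ℚ (Matrix X'.M.κ X.M.κ ℚ)) (Λ : Finset ℕ)
    (φ : ∀ (p : ℕ) [Fact p.Prime], Matrix X'.M.κ X.M.κ ℚ_[p])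
    (ψ : ∀ (p : ℕ) [Fact p.Prime], Matrix X.M.κ X'.M.κ ℚ_[p])
    (h1 : ∀ (p : ℕ) [Fact p.Prime], ψ p * φ p = 1) (h2 : ∀ (p : ℕ) [Fact p.Prime], φ p * ψ p = 1)
    (hW : ∀ (p : ℕ) [Fact p.Prime], φ p ∈ Submodule.span ℚ_[p]
      (padic p '' (W : Set (Matrix X'.M.κ X.M.κ ℚ))))
    (hφ : ∀ (p : ℕ) [Fact p.Prime], p ∈ Λ → MapsLattice X X' p (φ p)) :
    ∃ f ∈ W, (∃ g : Matrix X.M.κ X'.M.κ ℚ, g * f = 1 ∧ f * g = 1) ∧
      ∀ (p : ℕ) [Fact p.Prime], p ∈ Λ → MapsLattice X X' p (padic p f) := by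
  classical
  have hcard : Fintype.card X.M.κ = Fintype.card X'.M.κ := hX.trans hX'.symm
  let e : X.M.κ ≃ X'.M.κ := Fintype.equivOfCardEq hcard
  let Λ' : Finset ℕ := insert 2 (Λ.filter Nat.Prime)
  have hΛ' : ∀ p ∈ Λ', p.Prime := by
    intro p hp
    rcases Finset.mem_insert.1 hp with rfl | hp
    · exact Nat.prime_two
    · exact (Finset.mem_filter.1 hp).2
  let U : ∀ (p : ℕ) [Fact p.Prime], Set (Matrix X'.M.κ X.M.κ ℚ_[p]) := fun p _ =>
    {Y | (Y.submatrix e id).det ≠ 0 ∧ (p ∈ Λ → MapsLattice X X' p Y)}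
  have hU : ∀ (p : ℕ) [Fact p.Prime], p ∈ Λ' → U p ∈ 𝓝 (φ p) := by
    intro p _ _
    refine Filter.inter_mem ?_ ?_
    · have hc : Continuous fun Y : Matrix X'.M.κ X.M.κ ℚ_[p] => (Y.submatrix e id).det :=
        (continuous_id.matrix_submatrix e id).matrix_det
      refine hc.continuousAt.eventually_ne ?_
      intro h0
      have h3 : (φ p).submatrix e id * (ψ p).submatrix id e = 1 := by
        refine (Matrix.submatrix_mul_equiv (φ p) (ψ p) e (Equiv.refl _) e).trans ?_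
        rw [h2, Matrix.submatrix_one_equiv]
      have h4 := congrArg Matrix.det h3
      rw [Matrix.det_mul, h0, zero_mul, Matrix.det_one] at h4
      exact zero_ne_one h4
    · by_cases hp : p ∈ Λ
      · obtain ⟨B, C, a1, a2, a3⟩ := exists_frame hX (X.T p) (hT p)
        obtain ⟨B', C', b1, b2, b3⟩ := exists_frame hX' (X'.T p) (hT' p)
        have h3 := lattice_nhds a1 a2 b1 b2 a3 b3 (h1 p) (h2 p) (hφ p hp)
        exact Filter.mem_of_superset h3 fun Y hY _ => hY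
      · exact Filter.mem_of_superset Filter.univ_mem fun Y _ h => absurd h hp
  obtain ⟨f, hf, hfU⟩ := exists_near W Λ' hΛ' φ (fun p _ _ => hW p) U hU
  refine ⟨f, hf, ?_, fun p _ hp => (hfU p (Finset.mem_insert_of_mem (Finset.mem_filter.2
    ⟨hp, Fact.out⟩))).2 hp⟩
  have : Fact (Nat.Prime 2) := ⟨Nat.prime_two⟩
  have hdet := (hfU 2 (Finset.mem_insert_self _ _)).1
  have hdet' : (f.submatrix e id).det ≠ 0 := by
    intro h0
    apply hdet
    have h3 : (padic 2 f).submatrix e id = (algebraMap ℚ ℚ_[2]).mapMatrix (f.submatrix e id) := rfl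
    rw [h3, ← RingHom.map_det, h0, map_zero]
  have hu : IsUnit (f.submatrix e id).det := isUnit_iff_ne_zero.2 hdet'
  refine ⟨((f.submatrix e id)⁻¹).submatrix id e.symm, ?_, ?_⟩
  · have h3 := Matrix.nonsing_inv_mul _ hu
    have h4 : ((f.submatrix e id)⁻¹).submatrix id e.symm * (f.submatrix e id).submatrix e.symm id =
        1 := by
      rw [Matrix.submatrix_mul_equiv (f.submatrix e id)⁻¹ (f.submatrix e id) id e.symm id, h3]
      exact Matrix.submatrix_id_id 1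
    rw [Matrix.submatrix_submatrix] at h4
    have h5 : f.submatrix (e ∘ e.symm) (id ∘ id) = f := by
      rw [Equiv.self_comp_symm]
      exact Matrix.submatrix_id_id f
    rwa [h5] at h4
  · have h3 := Matrix.mul_nonsing_inv _ hu
    have h4 : (f.submatrix e id).submatrix e.symm id * ((f.submatrix e id)⁻¹).submatrix id e.symm =
        1 := by
      refine (Matrix.submatrix_mul_equiv (f.submatrix e id) (f.submatrix e id)⁻¹ e.symm
        (Equiv.refl _) e.symm).trans ?_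
      rw [h3, Matrix.submatrix_one_equiv]
    rw [Matrix.submatrix_submatrix] at h4
    have h5 : f.submatrix (e ∘ e.symm) (id ∘ id) = f := by
      rw [Equiv.self_comp_symm]
      exact Matrix.submatrix_id_id f
    rwa [h5] at h4

/-! ## Codes -/

theorem exists_code {X Y : Type*} (Good : X → Prop) (R : X → X → Prop) (inv : X → Y)
    (hfin : (inv '' {T | Good T}).Finite)
    (h : ∀ T0, Good T0 → ∃ (k : ℕ) (c : X → ℕ), (∀ T, c T < k) ∧
      ∀ T T', Good T → Good T' → inv T = inv T0 → inv T' = inv T0 → c T = c T' → R T T') :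
    ∃ (N : ℕ) (c : X → ℕ), (∀ T, Good T → c T < N) ∧
      ∀ T T', Good T → Good T' → c T = c T' → R T T' := by
  classical
  have h' : ∀ y : Y, ∃ (k : ℕ) (c : X → ℕ), (∀ T, c T < k) ∧
      ∀ T T', Good T → Good T' → inv T = y → inv T' = y → c T = c T' → R T T' := by
    intro y
    by_cases hy : ∃ T0, Good T0 ∧ inv T0 = y
    · obtain ⟨T0, hT0, rfl⟩ := hy
      exact h T0 hT0
    · exact ⟨1, fun _ => 0, fun _ => Nat.one_pos, fun T T' hT _ hTy _ _ => (hy ⟨T, hT, hTy⟩).elim⟩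
  choose k c hk hc using h'
  let code : X → Y × ℕ := fun T => (inv T, c (inv T) T)
  have hcode : (code '' {T | Good T}).Finite := by
    refine (hfin.biUnion (t := fun y => (fun j => (y, j)) '' (Set.Iio (k y)))
      (fun y _ => (Set.finite_Iio _).image _)).subset ?_
    rintro _ ⟨T, hT, rfl⟩
    exact Set.mem_biUnion ⟨T, hT, rfl⟩ ⟨_, hk _ _, rfl⟩
  have := hcode.to_subtype
  obtain ⟨m, ⟨e⟩⟩ := Finite.exists_equiv_fin (code '' {T | Good T})
  have hmem : ∀ T, Good T → code T ∈ code '' {T | Good T} := fun T hT =>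
    Set.mem_image_of_mem code hT
  have hex : ∀ T, ∃ j : ℕ, ∀ hT : Good T, j = (e ⟨code T, hmem T hT⟩ : ℕ) := by
    intro T
    by_cases hT : Good T
    · exact ⟨(e ⟨code T, hmem T hT⟩ : ℕ), fun _ => rfl⟩
    · exact ⟨0, fun h => absurd h hT⟩
  choose d hd using hex
  refine ⟨m, d, fun T hT => ?_, fun T T' hT hT' he => ?_⟩
  · rw [hd T hT]
    exact Fin.is_lt _
  · rw [hd T hT, hd T' hT'] at he
    have h1 := congrArg Subtype.val (e.injective (Fin.ext he))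
    have h2 : inv T = inv T' := congrArg Prod.fst h1
    have h3 : c (inv T) T = c (inv T') T' := congrArg Prod.snd h1
    rw [← h2] at h3
    exact hc (inv T) T T' hT hT' rfl h2.symm h3

/-- The `p`-adic realizations are isomorphic, with the lattices if `p ∈ Λ`. -/
def GalIso (Λ : Finset ℕ) (X X' : IMotive F) : Prop :=
  ∀ (p : ℕ) [Fact p.Prime], ∃ (φ : Matrix X'.M.κ X.M.κ ℚ_[p])
    (ψ : Matrix X.M.κ X'.M.κ ℚ_[p]), IsGaloisHom X.M X'.M p ⊤ φ ∧ IsGaloisHom X'.M X.M p ⊤ ψ ∧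
    ψ * φ = 1 ∧ φ * ψ = 1 ∧ (p ∈ Λ → MapsLattice X X' p φ)

/-- Motives with the same traces have isomorphic realizations. -/
theorem galIso_of_trace {w' : ℕ} {X X' : IMotive F} (h : Good S n w X) (h' : Good S n w' X')
    (htr : ∀ (p : ℕ) [Fact p.Prime] (g : GK F), (X.M.ρ p g).trace = (X'.M.ρ p g).trace) :
    GalIso ∅ X X' := by
  intro p _
  obtain ⟨r, B, C, f⟩ := exists_fr h p
  obtain ⟨r', B', C', f'⟩ := exists_fr h' p
  obtain ⟨A, hA⟩ := bn_ss f.ss f'.ss fun g => by rw [f.trace, f'.trace, htr]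
  obtain ⟨h1, h2, h3, h4⟩ := iso_of_conj f f' (A := (A : Matrix (Fin n) (Fin n) ℚ_[p]))
    (A' := ((A⁻¹ : GL (Fin n) ℚ_[p]) : Matrix (Fin n) (Fin n) ℚ_[p]))
    (by rw [← Units.val_mul, inv_mul_cancel, Units.val_one])
    (by rw [← Units.val_mul, mul_inv_cancel, Units.val_one]) hA
  exact ⟨_, _, h1, h2, h3, h4, fun h => absurd h (Finset.notMem_empty p)⟩

/-- **Faltings' finiteness**, with traces at finitely many places. -/
theorem traces (hn : 0 < n) (S : Finset (HeightOneSpectrum (𝓞 F))) :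
    ∃ 𝒬 : Finset (HeightOneSpectrum (𝓞 F)), (∀ v ∈ 𝒬, v ∉ S) ∧
      ∀ (w w' : ℕ) (X X' : IMotive F), Good S n w X → Good S n w' X' →
        (∀ v ∈ 𝒬, (X.poly v).coeff (n - 1) = (X'.poly v).coeff (n - 1)) →
        ∀ (p : ℕ) [Fact p.Prime] (g : GK F), (X.M.ρ p g).trace = (X'.M.ρ p g).trace := by
  obtain ⟨𝒬, h𝒬, h1⟩ := traces_of_finite (K := F) hn S
  refine ⟨𝒬, h𝒬, fun w w' X X' h h' heq => ?_⟩
  have hr : ∀ (p : ℕ), ∃ r : ∀ [Fact p.Prime], GK F →* GL (Fin n) ℤ_[p],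
      ∀ [Fact p.Prime], ∃ B C, Frame X n p r B C := by
    intro p
    by_cases hp : p.Prime
    · have : Fact p.Prime := ⟨hp⟩
      obtain ⟨r, B, C, f⟩ := exists_fr h p
      exact ⟨fun {_} => r, fun {_} => ⟨B, C, f⟩⟩
    · exact ⟨fun {h} => absurd h.out hp, fun {h} => absurd h.out hp⟩
  have hr' : ∀ (p : ℕ), ∃ r : ∀ [Fact p.Prime], GK F →* GL (Fin n) ℤ_[p],
      ∀ [Fact p.Prime], ∃ B C, Frame X' n p r B C := by
    intro p
    by_cases hp : p.Prime
    · have : Fact p.Prime := ⟨hp⟩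
      obtain ⟨r, B, C, f⟩ := exists_fr h' p
      exact ⟨fun {_} => r, fun {_} => ⟨B, C, f⟩⟩
    · exact ⟨fun {h} => absurd h.out hp, fun {h} => absurd h.out hp⟩
  choose r hr using hr
  choose r' hr' using hr'
  intro p _ g
  have h2 := h1 (fun p _ => toQ (r p)) (fun p _ => toQ (r' p)) X.poly X'.poly
    (goodSys h (fun p _ => r p) fun p _ => hr p) (goodSys h' (fun p _ => r' p) fun p _ => hr' p)
    heq p g
  obtain ⟨B, C, f⟩ := hr p
  obtain ⟨B', C', f'⟩ := hr' p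
  rw [f.trace, f'.trace] at h2
  exact h2

/-- **Codes.** -/
theorem codes (hn : 0 < n) (S : Finset (HeightOneSpectrum (𝓞 F))) (w : ℕ) (Λ : Finset ℕ) :
    ∃ (N : ℕ) (c : IMotive F → ℕ), (∀ X, Good S n w X → c X < N) ∧
      ∀ X X', Good S n w X → Good S n w X' → c X = c X' → GalIso Λ X X' := by
  classical
  obtain ⟨𝒬, h𝒬, htr⟩ := traces (F := F) hn S
  refine exists_code (Good S n w) (GalIso Λ) (fun X => fun v : 𝒬 => (X.poly v).coeff (n - 1)) ?_ ?_
  · refine (Set.Finite.pi' (t := fun v : 𝒬 => Set.Icc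
      (-((Ideal.absNorm (v : HeightOneSpectrum (𝓞 F)).asIdeal ^ w) ^ n * n.choose (n / 2) : ℕ) : ℤ)
      (((Ideal.absNorm (v : HeightOneSpectrum (𝓞 F)).asIdeal ^ w) ^ n * n.choose (n / 2) : ℕ) : ℤ))
      (fun v => Set.finite_Icc _ _)).subset ?_
    rintro _ ⟨X, hX, rfl⟩ v
    have hvS := h𝒬 v v.2
    obtain ⟨h1, h2⟩ := poly_monic hX.pure hvS
    refine abs_le.1 (coeff_bound _ h1 h2 ?_ (hX.pure.pure v hvS) (n - 1))
    rw [Nat.one_le_iff_ne_zero]
    exact fun h => v.1.ne_bot (Ideal.absNorm_eq_zero_iff.1 h)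
  · intro X₀ hX₀
    -- the representations
    have hr : ∀ (X : IMotive F) (p : ℕ), ∃ r : ∀ [Fact p.Prime], GK F →* GL (Fin n) ℤ_[p],
        Good S n w X → ∀ [Fact p.Prime], ∃ B C, Frame X n p r B C := by
      intro X p
      by_cases hp : p.Prime ∧ Good S n w X
      · have : Fact p.Prime := ⟨hp.1⟩
        obtain ⟨r, B, C, f⟩ := exists_fr hp.2 p
        exact ⟨fun {_} => r, fun _ {_} => ⟨B, C, f⟩⟩
      · exact ⟨fun {_} => 1, fun h {h'} => absurd ⟨h'.out, h⟩ hp⟩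
    choose r hr using hr
    have hcode : ∀ p : ℕ, ∃ (k : ℕ) (c : IMotive F → ℕ), (∀ X, c X < k) ∧
        ∀ [Fact p.Prime] (X X' : IMotive F), Good S n w X → Good S n w X' →
          (∀ g : GK F, (X.M.ρ p g).trace = (X₀.M.ρ p g).trace) →
          (∀ g : GK F, (X'.M.ρ p g).trace = (X₀.M.ρ p g).trace) → c X = c X' →
          ∃ A : GL (Fin n) ℤ_[p], ∀ g, r X' p g = A * r X p g * A⁻¹ := by
      intro p
      by_cases hp : p.Prime
      · have : Fact p.Prime := ⟨hp⟩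
        obtain ⟨B₀, C₀, f₀⟩ := hr X₀ p hX₀
        obtain ⟨k, c, hk, hc⟩ := local_code (r X₀ p) f₀.ss
        refine ⟨k, fun X => c (r X p), fun X => hk _, fun {_} X X' hX hX' h1 h2 h3 => ?_⟩
        obtain ⟨B, C, f⟩ := hr X p hX
        obtain ⟨B', C', f'⟩ := hr X' p hX'
        exact hc _ _ f.ss f'.ss (fun g => by rw [f.trace, f₀.trace, h1])
          (fun g => by rw [f'.trace, f₀.trace, h2]) h3
      · exact ⟨1, fun _ => 0, fun _ => Nat.one_pos, fun {h} => absurd h.out hp⟩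
    choose k c hk hc using hcode
    obtain ⟨K, ⟨e⟩⟩ := Finite.exists_equiv_fin (∀ p : Λ, Fin (k p))
    refine ⟨K, fun X => (e fun p => ⟨c p X, hk p X⟩ : ℕ), fun X => Fin.is_lt _, ?_⟩
    intro X X' hX hX' hi hi' hcode
    have t1 := htr w w X X₀ hX hX₀ fun v hv => congrFun hi ⟨v, hv⟩
    have t2 := htr w w X' X₀ hX' hX₀ fun v hv => congrFun hi' ⟨v, hv⟩
    have h3 := e.injective (Fin.ext hcode)
    intro p _
    by_cases hp : p ∈ Λ
    · have h4 := congrArg Fin.val (congrFun h3 ⟨p, hp⟩)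
      obtain ⟨A, hA⟩ := hc p X X' hX hX' (t1 p) (t2 p) h4
      obtain ⟨B, C, f⟩ := hr X p hX
      obtain ⟨B', C', f'⟩ := hr X' p hX'
      obtain ⟨a1, a2, a3, a4⟩ := iso_of_conj f f' (A := qm (A : Matrix (Fin n) (Fin n) ℤ_[p]))
        (A' := qm ((A⁻¹ : GL (Fin n) ℤ_[p]) : Matrix (Fin n) (Fin n) ℤ_[p]))
        (by rw [← map_mul, ← Units.val_mul, inv_mul_cancel, Units.val_one, map_one])
        (by rw [← map_mul, ← Units.val_mul, mul_inv_cancel, Units.val_one, map_one])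
        (fun g => by
          rw [toQ_val, toQ_val, ← map_mul, ← map_mul, ← Units.val_mul, ← Units.val_mul, hA g,
            inv_mul_cancel_right])
      exact ⟨_, _, a1, a2, a3, a4, fun _ => maps_of_conj f f' A⟩
    · obtain ⟨φ, ψ, a1, a2, a3, a4, _⟩ := galIso_of_trace hX hX'
        (fun p _ g => (t1 p g).trans (t2 p g).symm) p
      exact ⟨φ, ψ, a1, a2, a3, a4, fun h => absurd h hp⟩

/-! ## The theorems -/

/-- Objects of the class. -/
theorem good_of {V : Family F} [Nonempty V.T] {P : Motive F} {X : IMotive F}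
    (h : (P.sum (two V)).MumfordTate) (hM : Generated V P X.M) (hX : X.IsPure S n w) :
    Good S n w X where
  pure := hX
  rep p _ := rep h hM p
  semis p _ U hU := by
    obtain ⟨ψ, hψ⟩ := hX.polarization
    exact semis_generated h hM hX.real hψ p hU

/-- From the Galois representations to the Hodge structures. -/
theorem iso_of_gal {V : Family F} [Nonempty V.T] {P : Motive F} {X X' : IMotive F}
    (h : (P.sum (two V)).MumfordTate) (hM : Generated V P X.M) (hM' : Generated V P X'.M)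
    {w' : ℕ} (hX : X.IsPure S n w) (hX' : X'.IsPure S n w') (Λ : Finset ℕ)
    (hg : GalIso Λ X X') : Isomorphic Λ X X' := by
  have hg' : ∀ p : ℕ, ∃ (φ : ∀ [Fact p.Prime], Matrix X'.M.κ X.M.κ ℚ_[p])
      (ψ : ∀ [Fact p.Prime], Matrix X.M.κ X'.M.κ ℚ_[p]), ∀ [Fact p.Prime],
      IsGaloisHom X.M X'.M p ⊤ φ ∧ ψ * φ = 1 ∧ φ * ψ = 1 ∧ (p ∈ Λ → MapsLattice X X' p φ) := by
    intro p
    by_cases hp : p.Prime
    · have : Fact p.Prime := ⟨hp⟩
      obtain ⟨φ, ψ, a1, _, a3, a4, a5⟩ := hg p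
      exact ⟨fun {_} => φ, fun {_} => ψ, fun {_} => ⟨a1, a3, a4, a5⟩⟩
    · exact ⟨fun {_} => 0, fun {_} => 0, fun {h} => absurd h.out hp⟩
  choose φ ψ hφ using hg'
  have htop : (⊤ : Subgroup (GK F)).FiniteIndex := inferInstance
  refine ⟨?_, hg, fun H hH => ?_⟩
  · obtain ⟨f, hf, ⟨g, h1, h2⟩, h3⟩ := near_iso hX.rank hX'.rank hX.lattice hX'.lattice
      (hodgeHoms X.M X'.M) Λ (fun p _ => φ p) (fun p _ => ψ p) (fun p _ => (hφ p).2.1)
      (fun p _ => (hφ p).2.2.1) (fun p _ => by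
        rw [← hodgeSpan_eq]
        exact gal_le h hM hM' p ⊤ htop (mem_galHoms.2 (hφ p).1)) (fun p _ => (hφ p).2.2.2)
    refine ⟨f, g, mem_hodgeHoms.1 hf, fun z hz => ?_, h1, h2, h3⟩
    exact inv_hom (map_one_of h1 ℂ) (map_one_of h2 ℂ) (mem_hodgeHoms.1 hf z hz)
  · obtain ⟨f, hf, ⟨g, h1, h2⟩, h3⟩ := near_iso hX.rank hX'.rank hX.lattice hX'.lattice
      (H.W ⊤) Λ (fun p _ => φ p) (fun p _ => ψ p) (fun p _ => (hφ p).2.1)
      (fun p _ => (hφ p).2.2.1) (fun p _ =>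
        (H.tate_iff p ⊤).1 (tate_of_hodge h hM hM' H hH p ⊤ htop) (mem_galHoms.2 (hφ p).1))
      (fun p _ => (hφ p).2.2.2)
    obtain ⟨a, ha, rfl⟩ := H.mem_W.1 hf
    exact ⟨a, fun σ => ha σ trivial, ⟨g, h1, h2⟩, h3⟩

/-- **Finitely many traces determine the motive.** -/
theorem determined (hn : 0 < n) (S : Finset (HeightOneSpectrum (𝓞 F))) :
    ∃ 𝒬 : Finset (HeightOneSpectrum (𝓞 F)), (∀ v ∈ 𝒬, v ∉ S) ∧
      ∀ 𝒞 : Set (Motive F), IsGenerated 𝒞 → ∀ (w w' : ℕ) (X X' : IMotive F),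
        X.M ∈ 𝒞 → X'.M ∈ 𝒞 → X.IsPure S n w → X'.IsPure S n w' →
        (∀ v ∈ 𝒬, (X.poly v).coeff (n - 1) = (X'.poly v).coeff (n - 1)) →
        Isomorphic ∅ X X' := by
  obtain ⟨𝒬, h𝒬, h1⟩ := traces (F := F) hn S
  refine ⟨𝒬, h𝒬, fun 𝒞 h𝒞 w w' X X' hX hX' hp hp' heq => ?_⟩
  obtain ⟨V, P, hV, h, hM, hM'⟩ := h𝒞 _ hX _ hX'
  have g := good_of h hM hp
  have g' := good_of h hM' hp'
  exact iso_of_gal h hM hM' hp hp' ∅ (galIso_of_trace g g' (h1 w w' X X' g g' heq))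

/-- **Finiteness.** -/
theorem finiteness (hn : 0 < n) (S : Finset (HeightOneSpectrum (𝓞 F))) (w : ℕ) (Λ : Finset ℕ) :
    ∃ N : ℕ, ∀ 𝒞 : Set (Motive F), IsGenerated 𝒞 → ∃ m ≤ N, ∃ Y : Fin m → IMotive F,
      (∀ i, (Y i).M ∈ 𝒞 ∧ (Y i).IsPure S n w) ∧
      ∀ X : IMotive F, X.M ∈ 𝒞 → X.IsPure S n w → ∃ i, Isomorphic Λ (Y i) X := by
  classical
  obtain ⟨N, c, hN, hc⟩ := codes (F := F) hn S w Λ
  refine ⟨N, fun 𝒞 h𝒞 => ?_⟩
  have hgood : ∀ X : IMotive F, X.M ∈ 𝒞 → X.IsPure S n w → Good S n w X := by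
    intro X hX hp
    obtain ⟨V, P, hV, h, hM, _⟩ := h𝒞 _ hX _ hX
    exact good_of h hM hp
  let D : Finset (Fin N) := Finset.univ.filter fun i =>
    ∃ X : IMotive F, X.M ∈ 𝒞 ∧ X.IsPure S n w ∧ c X = i
  have hD : ∀ i : D, ∃ X : IMotive F, X.M ∈ 𝒞 ∧ X.IsPure S n w ∧ c X = i := fun i =>
    (Finset.mem_filter.1 i.2).2
  choose Y hY1 hY2 hY3 using hD
  refine ⟨D.card, ?_, fun i => Y (D.equivFin.symm i), fun i => ⟨hY1 _, hY2 _⟩, ?_⟩
  · exact (Finset.card_le_univ D).trans_eq (Fintype.card_fin N)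
  · intro X hX hp
    have hlt := hN X (hgood X hX hp)
    have hi : (⟨c X, hlt⟩ : Fin N) ∈ D := Finset.mem_filter.2 ⟨Finset.mem_univ _, X, hX, hp, rfl⟩
    refine ⟨D.equivFin ⟨_, hi⟩, ?_⟩
    show Isomorphic Λ (Y (D.equivFin.symm (D.equivFin ⟨_, hi⟩))) X
    rw [Equiv.symm_apply_apply]
    obtain ⟨V, P, hV, h, hM, hM'⟩ := h𝒞 _ (hY1 ⟨_, hi⟩) _ hX
    exact iso_of_gal h hM hM' (hY2 _) hp Λ (hc _ _ (hgood _ (hY1 _) (hY2 _)) (hgood X hX hp)
      (hY3 ⟨_, hi⟩))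

end

end Run7.h457.SF
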