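import Pool.Agent.Run7.h457.SF.Bridge
import Pool.Agent.W401.Cheb.Frob

/-!
# Places, Frobenius elements and inertia groups, for a number field and its absolute Galois group
-/

set_option autoImplicit false
set_option linter.unusedSectionVars false

namespace Run7.h457.SF

open NumberField IsDedekindDomain Topology Polynomial Pool.Agent.Y800 Pool.Agent.W401.Cheb
open Pool.Agent.R390.SF (SubFld)

noncomputable section

variable {K : Type} [Field K] [NumberField K]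

theorem dvd_norm {p : ℕ} (hp : p.Prime) {v : HeightOneSpectrum (𝓞 K)}
    (hv : (p : 𝓞 K) ∈ v.asIdeal) : p ∣ Ideal.absNorm v.asIdeal := by
  by_contra hcon
  have h1 : IsCoprime (p : ℤ) (Ideal.absNorm v.asIdeal : ℤ) := by
    rw [Nat.isCoprime_iff_coprime]
    exact (Nat.Prime.coprime_iff_not_dvd hp).2 hcon
  obtain ⟨a, b, hab⟩ := h1
  apply v.isPrime.ne_top
  rw [Ideal.eq_top_iff_one]
  have h2 := congrArg (Int.cast : ℤ → 𝓞 K) hab
  rw [Int.cast_add, Int.cast_mul, Int.cast_mul, Int.cast_one, Int.cast_natCast,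
    Int.cast_natCast] at h2
  rw [← h2]
  exact v.asIdeal.add_mem (v.asIdeal.mul_mem_left _ hv)
    (v.asIdeal.mul_mem_left _ (Ideal.absNorm_mem v.asIdeal))

/-- the rational primes below a finite set of places -/
theorem exists_below (S : Finset (HeightOneSpectrum (𝓞 K))) : ∃ T : Finset ℕ,
    (∀ p ∈ T, p.Prime) ∧ ∀ p : ℕ, p.Prime → p ∉ T → ∀ v : HeightOneSpectrum (𝓞 K),
      (p : 𝓞 K) ∈ v.asIdeal → v ∉ S := by
  classical
  refine ⟨S.biUnion fun v => (Ideal.absNorm v.asIdeal).primeFactors, fun p hp => ?_,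
    fun p hp hpT v hv hvS => hpT ?_⟩
  · obtain ⟨v, _, h⟩ := Finset.mem_biUnion.1 hp
    exact Nat.prime_of_mem_primeFactors h
  · refine Finset.mem_biUnion.2 ⟨v, hvS, Nat.mem_primeFactors.2 ⟨hp, dvd_norm hp hv, ?_⟩⟩
    exact fun h => v.ne_bot (Ideal.absNorm_eq_zero_iff.1 h)

/-- the places above a finite set of primes -/
theorem exists_above (T : Finset ℕ) (hT : ∀ p ∈ T, p.Prime) :
    ∃ Q : Finset (HeightOneSpectrum (𝓞 K)), ∀ v, v ∈ Q ↔ ∃ p ∈ T, (p : 𝓞 K) ∈ v.asIdeal := by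
  classical
  have hfin : {v : HeightOneSpectrum (𝓞 K) | ∃ p ∈ T, (p : 𝓞 K) ∈ v.asIdeal}.Finite := by
    have h1 : {v : HeightOneSpectrum (𝓞 K) | ∃ p ∈ T, (p : 𝓞 K) ∈ v.asIdeal} =
        ⋃ p ∈ T, {v | v.asIdeal ∣ Ideal.span {(p : 𝓞 K)}} := by
      ext v
      simp only [Set.mem_ofPred_eq, Set.mem_iUnion, exists_prop]
      refine exists_congr fun p => and_congr_right fun _ => ?_
      rw [Ideal.dvd_span_singleton]
    rw [h1]
    refine Set.Finite.biUnion T.finite_toSet fun p hp => Ideal.finite_factors ?_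
    rw [Ne, Ideal.zero_eq_bot, Ideal.span_singleton_eq_bot]
    exact_mod_cast (hT p hp).ne_zero
  exact ⟨hfin.toFinset, fun v => by rw [Set.Finite.mem_toFinset]; rfl⟩

variable (K) in
/-- the ideal of the ring of integers of the closure of `K` -/
def idl (P : Ideal ZBar) : Ideal (𝓞 (AlgebraicClosure K)) := P.comap (theta K)

theorem mem_idl {P : Ideal ZBar} {x : 𝓞 (AlgebraicClosure K)} : x ∈ idl K P ↔ theta K x ∈ P :=
  Iff.rfl

theorem idl_max {P : Ideal ZBar} (hP : P.IsMaximal) : (idl K P).IsMaximal :=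
  Ideal.comap_isMaximal_of_surjective (theta K) (theta K).surjective

/-- the place below -/
theorem exists_place {p : ℕ} (hp : p.Prime) {P : Ideal ZBar} (hP : P.IsMaximal)
    (hpP : (p : ZBar) ∈ P) : ∃ v : HeightOneSpectrum (𝓞 K), (p : 𝓞 K) ∈ v.asIdeal ∧
      (idl K P).comap (algebraMap (𝓞 K) (𝓞 (AlgebraicClosure K))) = v.asIdeal := by
  have hm : (idl K P).IsMaximal := idl_max hP
  have hpm : (p : 𝓞 K) ∈ (idl K P).comap (algebraMap (𝓞 K) (𝓞 (AlgebraicClosure K))) := by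
    rw [Ideal.mem_comap, map_natCast, mem_idl, map_natCast]
    exact hpP
  have hpr : ((idl K P).comap (algebraMap (𝓞 K) (𝓞 (AlgebraicClosure K)))).IsPrime :=
    Ideal.IsPrime.comap _
  refine ⟨⟨_, hpr, ?_⟩, hpm, rfl⟩
  intro h0
  rw [h0, Ideal.mem_bot] at hpm
  exact hp.ne_zero (by exact_mod_cast hpm)

theorem norm_eq {p : ℕ} (hp : p.Prime) {v : HeightOneSpectrum (𝓞 K)}
    (hv : (p : 𝓞 K) ∈ v.asIdeal) (h : ∀ x : 𝓞 K, x - x ^ p ∈ v.asIdeal) :
    Ideal.absNorm v.asIdeal = p := by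
  classical
  have hvm : v.asIdeal.IsMaximal := v.isMaximal
  let _ : Field (𝓞 K ⧸ v.asIdeal) := Ideal.Quotient.field v.asIdeal
  have : Finite (𝓞 K ⧸ v.asIdeal) := Ideal.finiteQuotientOfFreeOfNeBot v.asIdeal v.ne_bot
  let _ : Fintype (𝓞 K ⧸ v.asIdeal) := Fintype.ofFinite _
  have h2 : Ideal.absNorm v.asIdeal = Fintype.card (𝓞 K ⧸ v.asIdeal) := by
    rw [Ideal.absNorm_apply, Submodule.cardQuot_apply, Nat.card_eq_fintype_card]
  have hdvd := dvd_norm hp hv
  apply le_antisymm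
  · rw [h2]
    have h3 : (Finset.univ : Finset (𝓞 K ⧸ v.asIdeal)).val ⊆
        (X ^ p - X : (𝓞 K ⧸ v.asIdeal)[X]).roots := by
      intro x _
      rw [Polynomial.mem_roots (FiniteField.X_pow_card_sub_X_ne_zero _ hp.one_lt)]
      obtain ⟨y, rfl⟩ := Ideal.Quotient.mk_surjective x
      rw [Polynomial.IsRoot.def, Polynomial.eval_sub, Polynomial.eval_pow, Polynomial.eval_X,
        sub_eq_zero, ← map_pow]
      exact ((Ideal.Quotient.mk_eq_mk_iff_sub_mem _ _).2 (h y)).symm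
    have h4 := Polynomial.card_le_degree_of_subset_roots h3
    rw [FiniteField.X_pow_card_sub_X_natDegree_eq _ hp.one_lt] at h4
    exact h4
  · refine Nat.le_of_dvd ?_ hdvd
    rw [Nat.pos_iff_ne_zero]
    exact fun h => v.ne_bot (Ideal.absNorm_eq_zero_iff.1 h)

/-- Frobenius elements -/
theorem frob_of {p : ℕ} (hp : p.Prime) {P : Ideal ZBar} (hP : P.IsMaximal)
    {v : HeightOneSpectrum (𝓞 K)} (hv : (p : 𝓞 K) ∈ v.asIdeal)
    (hPv : (idl K P).comap (algebraMap (𝓞 K) (𝓞 (AlgebraicClosure K))) = v.asIdeal) {σ : GK K}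
    (hσ : IsGeomFrob p P (phi K σ : GQ)) : IsFrob v σ⁻¹ := by
  have h1 : ∀ x : 𝓞 (AlgebraicClosure K), x - (σ • x) ^ p ∈ idl K P := by
    intro x
    rw [mem_idl, map_sub, map_pow, theta_smul]
    exact hσ (theta K x)
  have h2 : Ideal.absNorm v.asIdeal = p := by
    refine norm_eq hp hv fun x => ?_
    rw [← hPv, Ideal.mem_comap, map_sub, map_pow]
    have h3 := h1 (algebraMap (𝓞 K) (𝓞 (AlgebraicClosure K)) x)
    rw [Pool.Agent.W401.Frob.smul_alg] at h3
    exact h3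
  refine ⟨idl K P, idl_max hP, hPv, fun x => ?_⟩
  rw [h2]
  have h3 := h1 (σ⁻¹ • x)
  rw [smul_inv_smul] at h3
  exact h3

/-- inertia groups -/
theorem inert_of {P : Ideal ZBar} (hP : P.IsMaximal) {v : HeightOneSpectrum (𝓞 K)}
    (hPv : (idl K P).comap (algebraMap (𝓞 K) (𝓞 (AlgebraicClosure K))) = v.asIdeal) {σ : GK K}
    (hσ : InInertia P (phi K σ : GQ)) : IsInert v σ := by
  refine ⟨idl K P, idl_max hP, hPv, fun x => ?_⟩
  rw [mem_idl, map_sub, theta_smul]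
  exact hσ (theta K x)

/-- a closed set which contains almost all Frobenius elements is everything -/
theorem closed_all (C : Set (GK K)) (hC : IsClosed C) (S : Finset (HeightOneSpectrum (𝓞 K)))
    (h : ∀ v ∉ S, ∀ σ : GK K, IsFrob v σ → σ⁻¹ ∈ C) (g : GK K) : g ∈ C := by
  obtain ⟨T, _, hT⟩ := exists_below S
  have h1 := Pool.Agent.R390.SF.closed_univ' (F := img K) ((phiH K) '' C)
    ((phiH K).isClosedMap C hC) (T ∪ {0}) (by
      intro p hp hpT P hP hpP τ hτ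
      obtain ⟨σ, rfl⟩ := (phi K).surjective τ
      obtain ⟨v, hv, hPv⟩ := exists_place (K := K) hp hP hpP
      have h2 := h v (hT p hp (fun h => hpT (Finset.mem_union_left _ h)) v hv) _
        (frob_of hp hP hv hPv hτ)
      rw [inv_inv] at h2
      exact ⟨σ, h2, rfl⟩) (phiH K g)
  obtain ⟨g', hg', he⟩ := h1
  rwa [(phiH K).injective he] at hg'

/-- **A uniform finite set of places.** -/
theorem exists_place_set (S S' : Finset (HeightOneSpectrum (𝓞 K))) (R : Finset ℕ)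
    (hR : ∀ p ∈ R, p.Prime) (D : ℕ) :
    ∃ Q : Finset (HeightOneSpectrum (𝓞 K)), (∀ v ∈ Q, v ∉ S' ∧ ∀ p ∈ R, (p : 𝓞 K) ∉ v.asIdeal) ∧
      ∀ H : Subgroup (GK K), IsOpen (H : Set (GK K)) → H.index ≤ D →
        (∀ v ∉ S, (∀ p ∈ R, (p : 𝓞 K) ∉ v.asIdeal) → ∀ τ : GK K, IsInert v τ → τ ∈ H) →
        ∀ g : GK K, ∃ v ∈ Q, ∃ σ : GK K, IsFrob v σ ∧ σ⁻¹ * g⁻¹ ∈ H := by
  classical
  obtain ⟨T, hT1, hT⟩ := exists_below S
  obtain ⟨T', hT1', hT'⟩ := exists_below S'
  obtain ⟨𝒯, h𝒯, hD⟩ := Pool.Agent.R390.SF.exists_prime_set' (F := img K) (T ∪ R) (T' ∪ R) (by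
    intro p hp
    rcases Finset.mem_union.1 hp with h | h
    · exact hT1 p h
    · exact hR p h) D
  obtain ⟨Q, hQ⟩ := exists_above (K := K) 𝒯 fun p hp => (h𝒯 p hp).1
  have hsep : ∀ p : ℕ, p.Prime → p ∉ R → ∀ v : HeightOneSpectrum (𝓞 K), (p : 𝓞 K) ∈ v.asIdeal →
      ∀ q ∈ R, (q : 𝓞 K) ∉ v.asIdeal := by
    intro p hp hpR v hv q hq hqv
    have hne : p ≠ q := fun h => hpR (h ▸ hq)
    obtain ⟨a, b, hab⟩ := Nat.isCoprime_iff_coprime.2 ((Nat.coprime_primes hp (hR q hq)).2 hne)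
    apply v.isPrime.ne_top
    rw [Ideal.eq_top_iff_one]
    have h2 := congrArg (Int.cast : ℤ → 𝓞 K) hab
    rw [Int.cast_add, Int.cast_mul, Int.cast_mul, Int.cast_one, Int.cast_natCast,
      Int.cast_natCast] at h2
    rw [← h2]
    exact v.asIdeal.add_mem (v.asIdeal.mul_mem_left _ hv) (v.asIdeal.mul_mem_left _ hqv)
  refine ⟨Q, fun v hv => ?_, ?_⟩
  · obtain ⟨p, hp, hpv⟩ := (hQ v).1 hv
    obtain ⟨h1, h2⟩ := h𝒯 p hp
    exact ⟨hT' p h1 (fun h => h2 (Finset.mem_union_left _ h)) v hpv,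
      hsep p h1 (fun h => h2 (Finset.mem_union_right _ h)) v hpv⟩
  · intro H hH hHD hI g
    have hidx : (H.map (phi K).toMonoidHom).index = H.index :=
      Subgroup.index_map_equiv H (phi K)
    have hopen : IsOpen ((H.map (phi K).toMonoidHom : Subgroup (img K).fixingSubgroup) :
        Set (img K).fixingSubgroup) := by
      have h1 : ((H.map (phi K).toMonoidHom : Subgroup (img K).fixingSubgroup) :
        Set (img K).fixingSubgroup) = (phiH K) '' (H : Set (GK K)) := rfl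
      rw [h1]
      exact (phiH K).isOpenMap _ hH
    obtain ⟨p, hp, P, hP, hpP, τ, hτ, hg⟩ := hD (H.map (phi K).toMonoidHom) hopen
      (by rw [hidx]; exact hHD) (by
        intro p hp hpS P hP hpP τ hτ
        obtain ⟨σ, rfl⟩ := (phi K).surjective τ
        obtain ⟨v, hv, hPv⟩ := exists_place (K := K) hp hP hpP
        exact ⟨σ, hI v (hT p hp (fun h => hpS (Finset.mem_union_left _ h)) v hv)
          (hsep p hp (fun h => hpS (Finset.mem_union_right _ h)) v hv) σ (inert_of hP hPv hτ), rfl⟩)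
      (phi K g)
    obtain ⟨σ, rfl⟩ := (phi K).surjective τ
    obtain ⟨v, hv, hPv⟩ := exists_place (K := K) (h𝒯 p hp).1 hP hpP
    refine ⟨v, (hQ v).2 ⟨p, hp, hv⟩, σ⁻¹, frob_of (h𝒯 p hp).1 hP hv hPv hτ, ?_⟩
    obtain ⟨h, hh, he⟩ := hg
    have h3 : phi K (σ⁻¹⁻¹ * g⁻¹) = phi K h := by
      rw [inv_inv, map_mul, map_inv]
      exact he.symm
    rw [(phi K).injective h3]
    exact hh

end

end Run7.h457.SF
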