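import Pool.Agent.Run7.h457.PM.Main
import Pool.Agent.Run7.h457.SF.Defs
import Pool.Agent.Run7.h514.MT.Desc

/-!
# Semisimplicity of the realizations of generated motives
-/

set_option autoImplicit false
set_option linter.unusedSectionVars false

namespace Run7.h457.SF

open Matrix NumberField Run7.h457.MT Run7.h457.PM Pool.Agent.W401.Cheb
open Run7.h869.HG (HKC Family)
open Pool.Agent.Run7.h483.MT (GoodR)
open scoped ComplexOrder

noncomputable section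

attribute [local instance] Run7.h869.HG.Etale.field Run7.h869.HG.Etale.numberField

variable {F : Type} [Field F]

/-- **The Mumford-Tate conjecture** for generated motives. -/
theorem lie_generated {V : Family F} [Nonempty V.T] {P M : Motive F}
    (h : (P.sum (two V)).MumfordTate) (hM : Generated V P M) (p : ℕ) [Fact p.Prime] :
    ∃ ρ : GK F →* Matrix M.κ M.κ ℚ_[p], (∀ σ, ρ σ = M.ρ p σ) ∧
    (∀ N : ℕ, ∃ Δ : Subgroup (GK F), Δ.FiniteIndex ∧ ∀ σ ∈ Δ, NearOne N (ρ σ)) ∧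
    ∃ (C : Type) (_ : Fintype C) (_ : DecidableEq C) (a b : C → ℤ) (e : C → Matrix M.κ M.κ ℂ),
      (∀ c c', e c * e c' = if c = c' then e c else 0) ∧ ∑ c, e c = 1 ∧
      (∀ z : ℂ, z ≠ 0 → M.h z = ∑ c, (z ^ (-a c) * starRingEnd ℂ z ^ (-b c)) • e c) ∧
      galLie (fun σ => ρ σ) = ratSpan ℚ_[p]
        (mtLie (∑ c, (a c : ℂ) • e c) (∑ c, (b c : ℂ) • e c) : Set (Matrix M.κ M.κ ℚ)) := by
  obtain ⟨C, _, _, a, b, e, he, he1, hh, hp⟩ := h
  obtain ⟨hone, hmul, hn, hg⟩ := hp p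
  obtain ⟨ρP, hP⟩ := rep_left p hone hmul
  have hbase : (fun σ => ((P.obj ρP).sum (toFam V p).two).ρ σ) = (P.sum (two V)).ρ p := by
    funext σ
    show Matrix.fromBlocks (ρP σ) 0 0 _ = Matrix.fromBlocks (P.ρ p σ) 0 0 _
    rw [hP]
    rfl
  have h0 : GoodR (∑ c, (a c : ℂ) • e c) (∑ c, (b c : ℂ) • e c) ((P.sum (two V)).ρ p)
      ((P.obj ρP).sum (toFam V p).two).h (fun σ => ((P.obj ρP).sum (toFam V p).two).ρ σ) := by
    rw [hbase]
    exact good_refl hn a b e he he1 hh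
  obtain ⟨ρ, hρ, hgen⟩ := generated_at p ρP hP hM
  have h1 := good_with (toFam V p) (P := P.obj ρP) (M := M.obj ρ)
    (good_summand h0 (summand_left (P.obj ρP) (toFam V p).two))
    (good_summand h0 (summand_right (P.obj ρP) (toFam V p).two)) hgen
  obtain ⟨E, hE, hN, C', i1, i2, a', b', e', he', hs', hh', hD, hD'⟩ := h1
  have h2 := galLie_goodR hone hmul hn hg (M.obj ρ).ρ E hE hN
  rw [hD, hD'] at h2
  refine ⟨ρ, hρ, fun N => ?_, C', i1, i2, a', b', e', he', hs', hh', h2⟩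
  obtain ⟨Δ, hΔ, hN⟩ := hN N
  exact ⟨Δ, hΔ, fun σ hσ => (hN σ hσ).1⟩

theorem form_lie {κ C : Type} [Fintype κ] [DecidableEq κ] [Fintype C] [DecidableEq C] {a b : C → ℤ}
    {e : C → Matrix κ κ ℂ} (he : ∀ c c', e c * e c' = if c = c' then e c else 0)
    (hs : ∑ c, e c = 1) {h : ℂ → Matrix κ κ ℂ}
    (hh : ∀ z : ℂ, z ≠ 0 → h z = ∑ c, (z ^ (-a c) * starRingEnd ℂ z ^ (-b c)) • e c)
    {Ψ : Matrix κ κ ℂ} {w : ℕ}
    (hΨ : ∀ z : ℂ, z ≠ 0 → (h z)ᵀ * Ψ * h z = ((z * starRingEnd ℂ z) ^ w)⁻¹ • Ψ) :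
    (∑ c, (a c : ℂ) • e c)ᵀ * Ψ + Ψ * (∑ c, (a c : ℂ) • e c) = (w : ℂ) • Ψ ∧
    (∑ c, (b c : ℂ) • e c)ᵀ * Ψ + Ψ * (∑ c, (b c : ℂ) • e c) = (w : ℂ) • Ψ := by
  have hel : ∀ (φ : C → ℂ) (c : C), e c * (∑ c', φ c' • e c') = φ c • e c := by
    intro φ c
    rw [Finset.mul_sum, Finset.sum_eq_single c]
    · rw [Matrix.mul_smul, he, if_pos rfl]
    · intro c' _ hc'
      rw [Matrix.mul_smul, he, if_neg (Ne.symm hc'), smul_zero]
    · intro h
      exact absurd (Finset.mem_univ c) h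
  have her : ∀ (φ : C → ℂ) (c : C), (∑ c', φ c' • e c') * e c = φ c • e c := by
    intro φ c
    rw [Finset.sum_mul, Finset.sum_eq_single c]
    · rw [Matrix.smul_mul, he, if_pos rfl]
    · intro c' _ hc'
      rw [Matrix.smul_mul, he, if_neg hc', smul_zero]
    · intro h
      exact absurd (Finset.mem_univ c) h
  -- the pieces
  have key : ∀ c c', (e c)ᵀ * Ψ * e c' ≠ 0 → a c + a c' = w ∧ b c + b c' = w := by
    intro c c' hne
    have h1 : ∀ z : ℂ, z ≠ 0 → z ^ (-(a c + a c' - w)) *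
        starRingEnd ℂ z ^ (-(b c + b c' - w)) = 1 := by
      intro z hz
      have hz' : starRingEnd ℂ z ≠ 0 := (map_ne_zero _).2 hz
      have h2 : (e c)ᵀ * ((h z)ᵀ * Ψ * h z) * e c' =
          (e c)ᵀ * (((z * starRingEnd ℂ z) ^ w)⁻¹ • Ψ) * e c' := by rw [hΨ z hz]
      have h3 : (e c)ᵀ * ((h z)ᵀ * Ψ * h z) * e c' =
          ((h z * e c)ᵀ * Ψ) * (h z * e c') := by
        rw [Matrix.transpose_mul]
        simp only [Matrix.mul_assoc]
      rw [h3, hh z hz, her, her, Matrix.transpose_smul, Matrix.smul_mul, Matrix.smul_mul,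
        Matrix.mul_smul, smul_smul, Matrix.mul_smul, Matrix.smul_mul] at h2
      have h4 := smul_left_injective ℂ hne h2
      rw [_root_.zpow_neg, _root_.zpow_neg, zpow_sub₀ hz, zpow_sub₀ hz', zpow_add₀ hz, zpow_add₀ hz', zpow_natCast,
        zpow_natCast]
      rw [_root_.zpow_neg, _root_.zpow_neg, _root_.zpow_neg, _root_.zpow_neg, mul_pow] at h4
      have ha : z ^ a c ≠ 0 := zpow_ne_zero _ hz
      have ha' : z ^ a c' ≠ 0 := zpow_ne_zero _ hz
      have hb : starRingEnd ℂ z ^ b c ≠ 0 := zpow_ne_zero _ hz'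
      have hb' : starRingEnd ℂ z ^ b c' ≠ 0 := zpow_ne_zero _ hz'
      have hw : z ^ w ≠ 0 := pow_ne_zero _ hz
      have hw' : starRingEnd ℂ z ^ w ≠ 0 := pow_ne_zero _ hz'
      field_simp at h4 ⊢
      linear_combination h4
    obtain ⟨h2, h3⟩ := chr_trivial h1
    constructor <;> omega
  have hdec : Ψ = ∑ c, ∑ c', (e c)ᵀ * Ψ * e c' := by
    have h1 : Ψ = (∑ c, (e c)ᵀ) * Ψ * (∑ c', e c') := by
      rw [← Matrix.transpose_sum, hs, Matrix.transpose_one, Matrix.one_mul, Matrix.mul_one]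
    conv_lhs => rw [h1]
    rw [Finset.sum_mul, Finset.sum_mul]
    exact Finset.sum_congr rfl fun c _ => Finset.mul_sum _ _ _
  have fin : ∀ φ : C → ℤ, (∀ c c', (e c)ᵀ * Ψ * e c' ≠ 0 → φ c + φ c' = w) →
      (∑ c, (φ c : ℂ) • e c)ᵀ * Ψ + Ψ * (∑ c, (φ c : ℂ) • e c) = (w : ℂ) • Ψ := by
    intro φ hφ
    have h1 : (∑ c, (φ c : ℂ) • e c)ᵀ * Ψ = ∑ c, ∑ c', (φ c : ℂ) • ((e c)ᵀ * Ψ * e c') := by
      have h3 : (∑ c, (φ c : ℂ) • e c)ᵀ * Ψ =
          (∑ c, (φ c : ℂ) • e c)ᵀ * Ψ * (∑ c', e c') := by rw [hs, Matrix.mul_one]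
      rw [h3, Matrix.transpose_sum, Finset.sum_mul, Finset.sum_mul]
      refine Finset.sum_congr rfl fun c _ => ?_
      rw [Finset.mul_sum]
      refine Finset.sum_congr rfl fun c' _ => ?_
      rw [Matrix.transpose_smul, Matrix.smul_mul, Matrix.smul_mul]
    have h2 : Ψ * (∑ c, (φ c : ℂ) • e c) = ∑ c, ∑ c', (φ c' : ℂ) • ((e c)ᵀ * Ψ * e c') := by
      have h3 : Ψ * (∑ c, (φ c : ℂ) • e c) =
          (∑ c, (e c)ᵀ) * Ψ * (∑ c, (φ c : ℂ) • e c) := by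
        rw [← Matrix.transpose_sum, hs, Matrix.transpose_one, Matrix.one_mul]
      rw [h3, Finset.sum_mul, Finset.sum_mul]
      refine Finset.sum_congr rfl fun c _ => ?_
      rw [Finset.mul_sum]
      refine Finset.sum_congr rfl fun c' _ => ?_
      rw [Matrix.mul_smul]
    rw [h1, h2]
    conv_rhs => rw [hdec]
    rw [← Finset.sum_add_distrib, Finset.smul_sum]
    refine Finset.sum_congr rfl fun c _ => ?_
    rw [← Finset.sum_add_distrib, Finset.smul_sum]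
    refine Finset.sum_congr rfl fun c' _ => ?_
    by_cases h0 : (e c)ᵀ * Ψ * e c' = 0
    · rw [h0, smul_zero, smul_zero, add_zero, smul_zero]
    · rw [← add_smul]
      congr 1
      exact_mod_cast hφ c c' h0
  exact ⟨fin a fun c c' hne => (key c c' hne).1, fin b fun c c' hne => (key c c' hne).2⟩

/-- **Semisimplicity** of the realizations of generated motives with a polarization. -/
theorem semis_generated {V : Family F} [Nonempty V.T] {P M : Motive F}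
    (h : (P.sum (two V)).MumfordTate) (hM : Generated V P M)
    (hreal : ∀ z : ℂ, z ≠ 0 → (M.h z).map (starRingEnd ℂ) = M.h z) {w : ℕ}
    {ψ : Matrix M.κ M.κ ℚ} (hψ : IsPolarization M w ψ) (p : ℕ) [Fact p.Prime]
    {U : Submodule ℚ_[p] (M.κ → ℚ_[p])} (hU : ∀ σ, ∀ x ∈ U, M.ρ p σ *ᵥ x ∈ U) :
    ∃ U' : Submodule ℚ_[p] (M.κ → ℚ_[p]), (∀ σ, ∀ x ∈ U', M.ρ p σ *ᵥ x ∈ U') ∧ IsCompl U U' := by
  obtain ⟨ρ, hρ, hN, C, _, _, a, b, e, he, hs, hh, hlie⟩ := lie_generated h hM p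
  obtain ⟨Δ, hΔ, hN2⟩ := hN 2
  obtain ⟨h1, h2⟩ := form_lie he hs hh hψ.1
  have hI : Complex.I ≠ 0 := Complex.I_ne_zero
  have hX : M.h Complex.I = ∑ c, (fun k : ℤ => Complex.I ^ k) (b c - a c) • e c := by
    rw [hh _ hI]
    refine Finset.sum_congr rfl fun c _ => ?_
    congr 1
    have h3 : starRingEnd ℂ Complex.I = Complex.I⁻¹ := by
      rw [Complex.conj_I, Complex.inv_I]
    rw [h3, _root_.inv_zpow', neg_neg, ← zpow_add₀ hI]
    congr 1
    ring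
  have hcast : ((w : ℚ) : ℂ) = (w : ℂ) := by push_cast; rfl
  obtain ⟨U', hU', hc⟩ := Run7.h514.MT.semisimple_of_lie ρ Δ hN2 hlie (fun N hN' =>
    Run7.h514.MT.compl_cpx (w := (w : ℚ)) (w' := (w : ℚ)) he hs rfl rfl
      (by rw [hcast]; exact h1) (by rw [hcast]; exact h2)
      (fun k : ℤ => Complex.I ^ k) hX (hreal _ hI) hψ.2 N hN') (M := U) (fun σ x hx => by
        rw [hρ]; exact hU σ x hx)
  exact ⟨U', fun σ x hx => by rw [← hρ]; exact hU' σ x hx, hc⟩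

end

end Run7.h457.SF
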